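import Mathlib
import Pool.Agent.U724B.LG

/-!
# Linked subspaces: algebra

`V` is a finite-dimensional vector space, `R` an algebra of operators and `A`, `B` complementary
subspaces stable under `R`. We give conditions for the projection onto `A` along `B` to be in `R`.
-/

set_option autoImplicit false

open Polynomial

namespace Pool.Agent.U724C

open Pool.Agent.U724B

variable {K : Type*} [Field K] {V : Type*} [AddCommGroup V] [Module K V]

/-- The subspace `U` is stable under the operators in `R`. -/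
def Stab (R : Subalgebra K (Module.End K V)) (U : Submodule K V) : Prop :=
  ∀ u ∈ R, ∀ x ∈ U, u x ∈ U

/-- Some operator in `R` is the identity on `A` and zero on `B`. -/
def Sep (R : Subalgebra K (Module.End K V)) (A B : Submodule K V) : Prop :=
  ∃ u ∈ R, (∀ x ∈ A, u x = x) ∧ ∀ y ∈ B, u y = 0

/-- Every subspace stable under `R` is the sum of its intersections with `A` and `B`. -/
def Splits (R : Subalgebra K (Module.End K V)) (A B : Submodule K V) : Prop :=
  ∀ U : Submodule K V, Stab R U → ∀ x ∈ A, ∀ y ∈ B, x + y ∈ U → x ∈ U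

/-- `M / M'` is a composition factor of `A`: `M' < M` are subspaces of `A` stable under `R`, with no
stable subspaces in between. -/
def Factor (R : Subalgebra K (Module.End K V)) (A M' M : Submodule K V) : Prop :=
  Stab R M' ∧ Stab R M ∧ M' < M ∧ M ≤ A ∧ ∀ T, Stab R T → M' < T → T ≤ M → T = M

/-- A composition factor `M / M'` of `A` is isomorphic to a composition factor `N / N'` of `B`; the
isomorphism is given by a linear map `f` from `M` to `N`. -/
def Linked (R : Subalgebra K (Module.End K V)) (A B : Submodule K V) : Prop :=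
  ∃ M' M N' N : Submodule K V, Factor R A M' M ∧ Factor R B N' N ∧ ∃ f : M →ₗ[K] N,
    (∀ x, (f x : V) ∈ N' ↔ (x : V) ∈ M') ∧ (∀ y ∈ N, ∃ x, (f x : V) - y ∈ N') ∧
    ∀ u ∈ R, ∀ (x : M) (hx : u x ∈ M), (f ⟨u x, hx⟩ : V) - u (f x) ∈ N'

variable {R : Subalgebra K (Module.End K V)} {A B : Submodule K V}

lemma splits_of_sep (h : Sep R A B) : Splits R A B := by
  obtain ⟨u, hu, hA, hB⟩ := h
  intro U hU x hx y hy hxy
  have := hU u hu _ hxy
  rwa [map_add, hA x hx, hB y hy, add_zero] at this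

lemma not_linked_of_sep (h : Sep R A B) : ¬ Linked R A B := by
  obtain ⟨u, hu, hA, hB⟩ := h
  rintro ⟨M', M, N', N, hM, hN, f, h1, h2, h3⟩
  obtain ⟨m, hm, hm'⟩ := SetLike.exists_of_lt hM.2.2.1
  have e1 : u m = m := hA m (hM.2.2.2.1 hm)
  have h4 := h3 u hu ⟨m, hm⟩ (by rw [e1]; exact hm)
  rw [hB _ (hN.2.2.2.1 (f ⟨m, hm⟩).2), sub_zero, h1] at h4
  apply hm'
  change u m ∈ M' at h4
  rwa [e1] at h4

/-- the local conditions follow from the splitting of the stable subspaces -/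
lemma pairs_of_splits (hAB : Disjoint A B) (hA : Stab R A) (hB : Stab R B) (h : Splits R A B) :
    ∀ x ∈ A, ∀ y ∈ B, ∃ u ∈ R, u x = x ∧ u y = 0 := by
  intro x hx y hy
  have hU : Stab R ((Subalgebra.toSubmodule R).map (LinearMap.applyₗ (x + y))) := by
    rintro u hu _ ⟨r, hr, rfl⟩
    exact ⟨u * r, R.mul_mem hu hr, rfl⟩
  obtain ⟨r, hr, hrx⟩ := h _ hU x hx y hy ⟨1, R.one_mem, rfl⟩
  have hrx' : r (x + y) = x := hrx
  have h1 : r y = x - r x := by
    rw [eq_sub_iff_add_eq, add_comm, ← map_add, hrx']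
  have h2 : r y ∈ A ⊓ B := ⟨by rw [h1]; exact A.sub_mem hx (hA r hr x hx), hB r hr y hy⟩
  rw [hAB.eq_bot, Submodule.mem_bot] at h2
  refine ⟨r, hr, ?_, h2⟩
  rw [h2] at h1
  exact (sub_eq_zero.1 h1.symm).symm

/-- the projection onto `A` along `B` -/
lemma exists_proj (hAB : IsCompl A B) : ∃ p : Module.End K V, (∀ w, p w ∈ A) ∧
    (∀ w, w - p w ∈ B) ∧ (∀ x ∈ A, p x = x) ∧ ∀ y ∈ B, p y = 0 := by
  have hker : LinearMap.ker (Submodule.projectionOnto A B hAB) = B :=
    Submodule.ker_projectionOnto hAB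
  have hleft : ∀ x : A, Submodule.projectionOnto A B hAB x = x :=
    Submodule.projectionOnto_apply_left hAB
  generalize Submodule.projectionOnto A B hAB = P at hker hleft
  refine ⟨A.subtype ∘ₗ P, fun w => (P w).2, fun w => ?_, fun x hx => ?_, fun y hy => ?_⟩
  · have h1 : w - (P w : V) ∈ LinearMap.ker P := by
      rw [LinearMap.mem_ker, map_sub, hleft, sub_self]
    rw [hker] at h1
    exact h1
  · exact congrArg Subtype.val (hleft ⟨x, hx⟩)
  · rw [← hker, LinearMap.mem_ker] at hy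
    change (P y : V) = 0
    rw [hy]; rfl

/-- Goursat's lemma. -/
lemma linked_of_not_splits [Module.Finite K V] (hAB : IsCompl A B)
    (hA : Stab R A) (hB : Stab R B) (h : ¬ Splits R A B) : Linked R A B := by
  classical
  -- the projection
  obtain ⟨p, hpA, hpB, hp1, hp0⟩ : ∃ p : Module.End K V, (∀ w, p w ∈ A) ∧ (∀ w, w - p w ∈ B) ∧
      (∀ x ∈ A, p x = x) ∧ ∀ y ∈ B, p y = 0 := exists_proj hAB
  have hpR : ∀ u ∈ R, ∀ w, p (u w) = u (p w) := by
    intro u hu w
    have e : u w = u (p w) + u (w - p w) := by rw [← map_add, add_sub_cancel]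
    rw [e, map_add, hp1 _ (hA u hu _ (hpA w)), hp0 _ (hB u hu _ (hpB w)), add_zero]
  have hmemB : ∀ w, p w = 0 → w ∈ B := by
    intro w hw
    have := hpB w
    rwa [hw, sub_zero] at this
  unfold Splits at h
  push Not at h
  obtain ⟨U, hU, x, hx, y, hy, hxy, hxU⟩ := h
  -- a minimal submodule above `U ⊓ A`
  obtain ⟨M, ⟨hMs, hM1, hM2⟩, hMmin⟩ := WellFounded.has_min
    (wellFounded_lt (α := Submodule K V)) {T | Stab R T ∧ U ⊓ A < T ∧ T ≤ U.map p}
    ⟨U.map p, by
      refine ⟨?_, ?_, le_rfl⟩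
      · rintro u hu _ ⟨w, hw, rfl⟩
        exact ⟨u w, hU u hu w hw, hpR u hu w⟩
      · refine lt_of_le_of_ne (fun a ha => ⟨a, ha.1, hp1 a ha.2⟩) ?_
        intro he
        apply hxU
        have : x ∈ U.map p := ⟨x + y, hxy, by rw [map_add, hp1 x hx, hp0 y hy, add_zero]⟩
        rw [← he] at this
        exact this.1⟩
  have hMA : M ≤ A := by
    intro a ha
    obtain ⟨w, -, rfl⟩ := hM2 ha
    exact hpA w
  set q : Module.End K V := 1 - p with hq
  have hq' : ∀ w, q w = w - p w := fun w => rfl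
  have hUAs : Stab R (U ⊓ A) := fun u hu x hx => ⟨hU u hu x hx.1, hA u hu x hx.2⟩
  have hUBs : Stab R (U ⊓ B) := fun u hu x hx => ⟨hU u hu x hx.1, hB u hu x hx.2⟩
  have hqR : ∀ u ∈ R, ∀ w, q (u w) = u (q w) := by
    intro u hu w
    rw [hq', hq', hpR u hu, map_sub]
  -- the section
  obtain ⟨s, hs⟩ : ∃ s : M →ₗ[K] V, ∀ a : M, s a ∈ U ∧ p (s a) = a := by
    let φ : U →ₗ[K] U.map p := p.restrict fun x hx => Submodule.mem_map_of_mem hx
    have hφ : Function.Surjective φ := by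
      rintro ⟨_, w, hw, rfl⟩
      exact ⟨⟨w, hw⟩, rfl⟩
    obtain ⟨g, hg⟩ := LinearMap.exists_rightInverse_of_surjective φ (LinearMap.range_eq_top.2 hφ)
    refine ⟨U.subtype ∘ₗ g ∘ₗ Submodule.inclusion hM2, fun a => ⟨(g _).2, ?_⟩⟩
    have := LinearMap.congr_fun hg (Submodule.inclusion hM2 a)
    exact congrArg Subtype.val this
  have hMf : Factor R A (U ⊓ A) M := by
    refine ⟨hUAs, hMs, hM1, hMA, fun T hT hT1 hT2 => ?_⟩
    by_contra hne
    exact hMmin T ⟨hT, hT1, hT2.trans hM2⟩ (lt_of_le_of_ne hT2 hne)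
  let N : Submodule K V := (U ⊓ M.comap p).map q
  have hNB : N ≤ B := by
    rintro _ ⟨w, -, rfl⟩
    exact hpB w
  have hNs : Stab R N := by
    rintro u hu _ ⟨w, hw, rfl⟩
    refine ⟨u w, ⟨hU u hu w hw.1, ?_⟩, hqR u hu w⟩
    change p (u w) ∈ M
    rw [hpR u hu]
    exact hMs u hu _ hw.2
  have hN1 : U ⊓ B ≤ N := by
    intro b hb
    refine ⟨b, ⟨hb.1, ?_⟩, ?_⟩
    · change p b ∈ M
      rw [hp0 b hb.2]
      exact M.zero_mem
    · rw [hq', hp0 b hb.2, sub_zero]
  have hsN : ∀ a : M, q (s a) ∈ N := fun a => ⟨s a, ⟨(hs a).1, by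
    change p (s a) ∈ M
    rw [(hs a).2]
    exact a.2⟩, rfl⟩
  have hsU : ∀ a : M, q (s a) ∈ U ⊓ B ↔ (a : V) ∈ U ⊓ A := by
    intro a
    rw [hq', (hs a).2]
    constructor
    · intro h
      refine ⟨?_, hMA a.2⟩
      have := U.sub_mem (hs a).1 h.1
      rwa [sub_sub_cancel] at this
    · intro h
      refine ⟨U.sub_mem (hs a).1 h.1, ?_⟩
      have := hpB (s a)
      rwa [(hs a).2] at this
  refine ⟨U ⊓ A, M, U ⊓ B, N, hMf, ⟨hUBs, hNs, ?_, hNB, ?_⟩,
    LinearMap.codRestrict N (q ∘ₗ s) hsN, hsU, ?_, ?_⟩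
  · refine lt_of_le_of_ne hN1 fun he => ?_
    obtain ⟨m, hm, hm'⟩ := SetLike.exists_of_lt hM1
    apply hm'
    have := hsN ⟨m, hm⟩
    rw [← he] at this
    exact (hsU ⟨m, hm⟩).1 this
  · intro T hT hT1 hT2
    let MT : Submodule K V := (U ⊓ M.comap p ⊓ T.comap q).map p
    have hMTM : MT ≤ M := by
      rintro _ ⟨w, hw, rfl⟩
      exact hw.1.2
    have hMTs : Stab R MT := by
      rintro u hu _ ⟨w, hw, rfl⟩
      refine ⟨u w, ⟨⟨hU u hu w hw.1.1, ?_⟩, ?_⟩, hpR u hu w⟩
      · change p (u w) ∈ M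
        rw [hpR u hu]
        exact hMs u hu _ hw.1.2
      · change q (u w) ∈ T
        rw [hqR u hu]
        exact hT u hu _ hw.2
    have hMT1 : U ⊓ A < MT := by
      refine lt_of_le_of_ne ?_ ?_
      · intro a ha
        refine ⟨a, ⟨⟨ha.1, ?_⟩, ?_⟩, hp1 a ha.2⟩
        · change p a ∈ M
          rw [hp1 a ha.2]
          exact hM1.le ha
        · change q a ∈ T
          rw [hq', hp1 a ha.2, sub_self]
          exact T.zero_mem
      · intro he
        obtain ⟨t, ht, ht'⟩ := SetLike.exists_of_lt hT1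
        obtain ⟨w, hw, rfl⟩ := hT2 ht
        apply ht'
        have : p w ∈ MT := ⟨w, ⟨hw, ht⟩, rfl⟩
        rw [← he] at this
        exact ⟨U.sub_mem hw.1 this.1, hpB w⟩
    have hMTe : MT = M := hMf.2.2.2.2 MT hMTs hMT1 hMTM
    refine le_antisymm hT2 ?_
    rintro _ ⟨w, hw, rfl⟩
    have h1 : p w ∈ MT := by rw [hMTe]; exact hw.2
    obtain ⟨w', hw', hpw⟩ := h1
    have h2 : w - w' ∈ T := hT1.le ⟨U.sub_mem hw.1 hw'.1.1, hmemB _ (by
      rw [map_sub, hpw, sub_self])⟩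
    have h3 : q w = (w - w') + q w' := by
      rw [hq', hq', hpw]
      abel
    rw [h3]
    exact T.add_mem h2 hw'.2
  · rintro _ ⟨w, hw, rfl⟩
    refine ⟨⟨p w, hw.2⟩, ?_⟩
    change q (s ⟨p w, hw.2⟩) - q w ∈ _
    have h1 := hs ⟨p w, hw.2⟩
    have h2 : q (s ⟨p w, hw.2⟩) - q w = s ⟨p w, hw.2⟩ - w := by
      rw [hq', hq', h1.2]
      change _ - p w - _ = _
      abel
    rw [h2]
    refine ⟨U.sub_mem h1.1 hw.1, hmemB _ ?_⟩
    rw [map_sub, h1.2]
    exact sub_self _
  · intro u hu a ha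
    change q (s ⟨u a, ha⟩) - u (q (s a)) ∈ _
    have h1 := hs ⟨u a, ha⟩
    have h2 : q (s ⟨u a, ha⟩) - u (q (s a)) = s ⟨u a, ha⟩ - u (s a) := by
      rw [hq', hq', h1.2, (hs a).2, map_sub]
      change _ - u a - _ = _
      abel
    rw [h2]
    refine ⟨U.sub_mem h1.1 (hU u hu _ (hs a).1), hmemB _ ?_⟩
    rw [map_sub, h1.2, hpR u hu, (hs a).2]
    exact sub_self _

/-- The main step of the local-global principle. -/
lemma sep_of_pairs [Module.Finite K V] {ι : Type*} (G : ι → Submodule K V) (S : Set ι)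
    [Finite ι] (hG : ∀ i, Stab R (G i))
    (h : ∀ i ∈ S, ∀ x ∈ G i, ∀ j ∉ S, ∀ y ∈ G j, ∃ u ∈ R, u x = x ∧ u y = 0) :
    Sep R (⨆ i ∈ S, G i) (⨆ j ∈ Sᶜ, G j) := by
  classical
  have := Fintype.ofFinite ι
  -- fix the second class
  have step1 : ∀ j ∉ S, ∀ y ∈ G j, ∃ u ∈ R, (∀ x ∈ ⨆ i ∈ S, G i, u x = x) ∧ u y = 0 := by
    intro j hj y hy
    let Ry : Submodule K (Module.End K V) :=
      { carrier := {u | u ∈ R ∧ u y = 0}
        add_mem' := by
          rintro a b ⟨ha, ha'⟩ ⟨hb, hb'⟩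
          exact ⟨R.add_mem ha hb, by rw [LinearMap.add_apply, ha', hb', add_zero]⟩
        zero_mem' := ⟨R.zero_mem, rfl⟩
        smul_mem' := by
          rintro c a ⟨ha, ha'⟩
          exact ⟨R.smul_mem ha c, by rw [LinearMap.smul_apply, ha', smul_zero]⟩ }
    have hmul : ∀ a ∈ Ry, ∀ b ∈ Ry, a * b ∈ Ry := by
      rintro a ⟨ha, ha'⟩ b ⟨hb, hb'⟩
      exact ⟨R.mul_mem ha hb, by rw [Module.End.mul_apply, hb', map_zero]⟩
    have hstab : ∀ F : Finset ι, StabOp Ry (⨆ i ∈ F, G i) := by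
      intro F a ha x hx
      have : (⨆ i ∈ F, G i) ≤ (⨆ i ∈ F, G i).comap a := by
        apply iSup₂_le
        intro i hi z hz
        exact (le_iSup₂_of_le (f := fun i (_ : i ∈ F) => G i) i hi le_rfl) (hG i a ha.1 z hz)
      exact this hx
    have hpw : ∀ F : Finset ι, (∀ i ∈ F, i ∈ S) → PW Ry (⨆ i ∈ F, G i) := by
      intro F
      induction F using Finset.induction_on with
      | empty =>
        intro _ z hz
        simp only [Finset.notMem_empty, iSup_false, iSup_bot, Submodule.mem_bot] at hz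
        exact ⟨0, Ry.zero_mem, by rw [hz]; rfl⟩
      | insert i F hi ih =>
        intro hF
        rw [Finset.iSup_insert]
        refine pw_sup hmul ?_ ?_ (ih fun k hk => hF k (Finset.mem_insert_of_mem hk))
        · intro a ha z hz
          exact hG i a ha.1 z hz
        · intro z hz
          obtain ⟨u, hu, h1, h2⟩ := h i (hF i (Finset.mem_insert_self _ _)) z hz j hj y hy
          exact ⟨u, ⟨hu, h2⟩, h1⟩
    have hSF : (⨆ i ∈ S, G i) = ⨆ i ∈ S.toFinite.toFinset, G i := by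
      simp only [Set.Finite.mem_toFinset]
    rw [hSF]
    obtain ⟨r, hr, hr'⟩ := exists_unit_of_pw hmul (IsNoetherian.noetherian _)
      (hstab S.toFinite.toFinset) (hpw S.toFinite.toFinset
        (fun i hi => (Set.Finite.mem_toFinset _).1 hi))
    exact ⟨r, hr.1, hr', hr.2⟩
  -- finitely many homogeneous elements
  have step2 : ∀ F : Finset V, (∀ y ∈ F, ∃ j ∉ S, y ∈ G j) →
      ∃ u ∈ R, (∀ x ∈ ⨆ i ∈ S, G i, u x = x) ∧ ∀ y ∈ F, u y = 0 := by
    intro F
    induction F using Finset.induction_on with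
    | empty => exact fun _ => ⟨1, R.one_mem, fun x _ => rfl, fun y hy => absurd hy (by simp)⟩
    | insert y F hy ih =>
      intro hF
      obtain ⟨u, hu, h1, h2⟩ := ih fun z hz => hF z (Finset.mem_insert_of_mem hz)
      obtain ⟨j, hj, hyj⟩ := hF y (Finset.mem_insert_self _ _)
      obtain ⟨w, hw, h3, h4⟩ := step1 j hj (u y) (hG j u hu y hyj)
      refine ⟨w * u, R.mul_mem hw hu, fun x hx => ?_, fun z hz => ?_⟩
      · rw [Module.End.mul_apply, h1 x hx, h3 x hx]
      · rw [Module.End.mul_apply]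
        rcases Finset.mem_insert.1 hz with rfl | hz
        · exact h4
        · rw [h2 z hz, map_zero]
  have hfg : ∀ j, ∃ F : Finset V, Submodule.span K (F : Set V) = G j := fun j =>
    IsNoetherian.noetherian (G j)
  choose F hF using hfg
  obtain ⟨u, hu, h1, h2⟩ := step2 ((Finset.univ.filter (fun j => j ∉ S)).biUnion F) (by
    intro y hy
    obtain ⟨j, hj, hyj⟩ := Finset.mem_biUnion.1 hy
    refine ⟨j, (Finset.mem_filter.1 hj).2, ?_⟩
    rw [← hF j]; exact Submodule.subset_span hyj)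
  refine ⟨u, hu, h1, fun y hy => ?_⟩
  have : (⨆ j ∈ Sᶜ, G j) ≤ LinearMap.ker u := by
    apply iSup₂_le
    intro j hj
    rw [← hF j, Submodule.span_le]
    intro z hz
    rw [SetLike.mem_coe, LinearMap.mem_ker]
    exact h2 z (Finset.mem_biUnion.2 ⟨j, Finset.mem_filter.2 ⟨Finset.mem_univ _, hj⟩, hz⟩)
  exact this hy

end Pool.Agent.U724C
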