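import Mathlib
import Pool.Agent.U724C.Alg

/-!
# Coprime characteristic polynomials
-/

set_option autoImplicit false

open Polynomial

namespace Pool.Agent.U724C

variable {K : Type*} [Field K] {V : Type*} [AddCommGroup V] [Module K V] [Module.Finite K V]

/-- The subspaces `A` and `B` are stable under `a`, and the characteristic polynomials of `a` on `A`
and on `B` are coprime. -/
def Coprime (A B : Submodule K V) (a : Module.End K V) : Prop :=
  ∃ (hA : ∀ x ∈ A, a x ∈ A) (hB : ∀ x ∈ B, a x ∈ B),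
    IsCoprime (a.restrict hA).charpoly (a.restrict hB).charpoly

/-- The subspace `A` is stable under `a`, and the characteristic polynomial of `a` on `A` has
rational coefficients. -/
def RatPoly (A : Submodule K V) (a : Module.End K V) : Prop :=
  ∃ hA : ∀ x ∈ A, a x ∈ A, ∀ n, ∃ q : ℚ, (a.restrict hA).charpoly.coeff n = (q : K)

variable {R : Subalgebra K (Module.End K V)} {A B : Submodule K V}

omit [Module.Finite K V] in
lemma aeval_restrict {a : Module.End K V} (hA : ∀ x ∈ A, a x ∈ A) (f : K[X]) (x : A) :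
    ((aeval (a.restrict hA) f x : A) : V) = aeval a f x := by
  induction f using Polynomial.induction_on' with
  | add p q hp hq =>
    rw [map_add, map_add, LinearMap.add_apply, LinearMap.add_apply, Submodule.coe_add, hp, hq]
  | monomial n c =>
    rw [← C_mul_X_pow_eq_monomial, map_mul, map_mul, aeval_C, aeval_C, map_pow, map_pow, aeval_X,
      aeval_X]
    simp only [Module.End.mul_apply, Module.algebraMap_end_apply, Submodule.coe_smul]
    congr 1
    induction n with
    | zero => rfl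
    | succ n ih =>
      rw [pow_succ', pow_succ', Module.End.mul_apply, Module.End.mul_apply, LinearMap.coe_restrict_apply, ih]

lemma cayley {a : Module.End K V} (hA : ∀ x ∈ A, a x ∈ A) (x : V) (hx : x ∈ A) :
    aeval a (a.restrict hA).charpoly x = 0 := by
  rw [← aeval_restrict hA _ ⟨x, hx⟩, LinearMap.aeval_self_charpoly]
  rfl

/-- a polynomial in `a` which separates -/
lemma sep_poly {ι : Type*} [Fintype ι] [DecidableEq ι] (T : ι → Submodule K V) (S : Finset ι)
    {a : Module.End K V} (hT : ∀ i, ∀ x ∈ T i, a x ∈ T i) {u v : K[X]}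
    (h : u * (∏ i ∈ S, (a.restrict (hT i)).charpoly) +
      v * (∏ j ∈ Sᶜ, (a.restrict (hT j)).charpoly) = 1) :
    (∀ i ∈ S, ∀ x ∈ T i, aeval a (v * ∏ j ∈ Sᶜ, (a.restrict (hT j)).charpoly) x = x) ∧
      ∀ j ∉ S, ∀ y ∈ T j, aeval a (v * ∏ j ∈ Sᶜ, (a.restrict (hT j)).charpoly) y = 0 := by
  have key : ∀ (s : Finset ι), ∀ i ∈ s, ∀ x ∈ T i,
      aeval a (∏ i ∈ s, (a.restrict (hT i)).charpoly) x = 0 := by
    intro s i hi x hx
    rw [← Finset.prod_erase_mul _ _ hi, map_mul, Module.End.mul_apply, cayley (hT i) x hx, map_zero]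
  constructor
  · intro i hi x hx
    have e : v * (∏ j ∈ Sᶜ, (a.restrict (hT j)).charpoly) =
        1 - u * (∏ i ∈ S, (a.restrict (hT i)).charpoly) := by
      rw [← h]; ring
    rw [e, map_sub, map_one, map_mul, LinearMap.sub_apply, Module.End.mul_apply, key S i hi x hx,
      map_zero, sub_zero]
    rfl
  · intro j hj y hy
    rw [map_mul, Module.End.mul_apply, key Sᶜ j (Finset.mem_compl.2 hj) y hy, map_zero]

/-- density -/
lemma coprime_of_sep [CharZero K] {ι : Type*} [Fintype ι] (T : ι → Submodule K V) (S : Set ι)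
    (hR : ∀ u ∈ R, ∀ i, ∀ x ∈ T i, u x ∈ T i)
    (G : Set (Module.End K V)) (h0 : 0 ∈ G) (hadd : ∀ a ∈ G, ∀ b ∈ G, a + b ∈ G)
    (hsmul : ∀ q : ℚ, ∀ a ∈ G, (q : K) • a ∈ G) (hspan : ∀ u ∈ R, u ∈ Submodule.span K G)
    (hGR : ∀ a ∈ G, a ∈ R)
    (h : ∃ u ∈ R, (∀ i ∈ S, ∀ x ∈ T i, u x = x) ∧ ∀ j ∉ S, ∀ y ∈ T j, u y = 0) :
    ∃ a ∈ G, ∀ i ∈ S, ∀ j ∉ S, Coprime (T i) (T j) a := by
  classical
  obtain ⟨u, hu, hu1, hu0⟩ := h
  obtain ⟨n, c, g, hg⟩ := Submodule.mem_span_set'.1 (hspan u hu)
  have hgT : ∀ i l, ∀ x ∈ T i, (g l : Module.End K V) x ∈ T i := fun i l =>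
    hR _ (hGR _ (g l).2) i
  let φ : ∀ i, (Fin n → K) →ₗ[K] Module.End K (T i) := fun i =>
    Fintype.linearCombination K fun l => (g l : Module.End K V).restrict (hgT i l)
  let b := Pi.basisFun K (Fin n)
  let P : ∀ i, Polynomial (MvPolynomial (Fin n) K) := fun i => LinearMap.polyCharpoly (φ i) b
  let ρ : ι → ι → MvPolynomial (Fin n) K := fun i j => resultant (P i) (P j)
  have hP : ∀ i x, (P i).map (MvPolynomial.eval x) = (φ i x).charpoly := by
    intro i x
    have := LinearMap.polyCharpoly_map_eq_charpoly (φ i) b x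
    rwa [show (⇑(b.repr x) : Fin n → K) = x from by ext i; simp [b]] at this
  have hm : ∀ i, (P i).Monic := fun i => LinearMap.polyCharpoly_monic (φ i) b
  have hρ : ∀ i j x, MvPolynomial.eval x (ρ i j) =
      resultant (φ i x).charpoly (φ j x).charpoly := by
    intro i j x
    have h1 := resultant_map_map (P i) (P j) (P i).natDegree (P j).natDegree (MvPolynomial.eval x)
    rw [hP, hP] at h1
    have e1 : (P i).natDegree = (φ i x).charpoly.natDegree := by
      rw [← hP, (hm i).natDegree_map]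
    have e2 : (P j).natDegree = (φ j x).charpoly.natDegree := by
      rw [← hP, (hm j).natDegree_map]
    rw [← h1, e1, e2]
  have hφ : ∀ (i : ι) (x : Fin n → K) (y : T i),
      ((φ i x y : T i) : V) = (∑ l, x l • (g l : Module.End K V)) y := by
    intro i x y
    simp only [φ, Fintype.linearCombination_apply, LinearMap.sum_apply, LinearMap.smul_apply,
      Submodule.coe_sum, Submodule.coe_smul, LinearMap.coe_restrict_apply]
  have hne : ∀ i ∈ S, ∀ j ∉ S, ρ i j ≠ 0 := by
    intro i hi j hj h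
    have h1 := hρ i j c
    rw [h, map_zero] at h1
    have h2 := (resultant_eq_zero_iff.1 h1.symm).2
    apply h2
    have e1 : φ i c = 1 := by
      ext y
      rw [hφ, hg, hu1 i hi _ y.2]; rfl
    have e2 : φ j c = 0 := by
      ext y
      rw [hφ, hg, hu0 j hj _ y.2]; rfl
    rw [e1, e2, LinearMap.charpoly_one, LinearMap.charpoly_zero]
    apply IsCoprime.pow
    exact ⟨-1, 1, by ring⟩
  let σ : MvPolynomial (Fin n) K :=
    ∏ p ∈ (Finset.univ : Finset (ι × ι)).filter (fun p => p.1 ∈ S ∧ p.2 ∉ S), ρ p.1 p.2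
  have hσ : σ ≠ 0 := by
    refine Finset.prod_ne_zero_iff.2 fun p hp => ?_
    have := (Finset.mem_filter.1 hp).2
    exact hne _ this.1 _ this.2
  obtain ⟨q, hq⟩ : ∃ q : Fin n → ℚ, MvPolynomial.eval (fun i => (q i : K)) σ ≠ 0 := by
    by_contra hcon
    push Not at hcon
    apply hσ
    refine MvPolynomial.funext_set (fun _ => Set.range ((↑) : ℚ → K))
      (fun _ => Set.infinite_range_of_injective Rat.cast_injective) fun x hx => ?_
    have h1 : ∀ i, ∃ q : ℚ, (q : K) = x i := fun i => hx i (Set.mem_univ i)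
    choose q hq using h1
    have h2 : x = fun i => (q i : K) := funext fun i => (hq i).symm
    rw [map_zero, h2]
    exact hcon q
  have hst : ∀ i, ∀ x ∈ T i, (∑ l, (q l : K) • (g l : Module.End K V)) x ∈ T i := by
    intro i x hx
    rw [LinearMap.sum_apply]
    exact (T i).sum_mem fun l _ => (T i).smul_mem _ (hgT i l x hx)
  refine ⟨∑ i, (q i : K) • (g i : Module.End K V), ?_, fun i hi j hj => ⟨hst i, hst j, ?_⟩⟩
  · have : ∀ s : Finset (Fin n), ∑ i ∈ s, (q i : K) • (g i : Module.End K V) ∈ G := by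
      intro s
      induction s using Finset.induction_on with
      | empty => rw [Finset.sum_empty]; exact h0
      | insert i s hi ih =>
        rw [Finset.sum_insert hi]
        exact hadd _ (hsmul _ _ (g i).2) _ ih
    exact this Finset.univ
  · have hq' : MvPolynomial.eval (fun i => (q i : K)) (ρ i j) ≠ 0 := by
      intro h
      apply hq
      rw [map_prod]
      exact Finset.prod_eq_zero (i := (i, j))
        (Finset.mem_filter.2 ⟨Finset.mem_univ _, hi, hj⟩) h
    rw [hρ] at hq'
    have h1 : IsCoprime (φ i fun i => (q i : K)).charpoly (φ j fun i => (q i : K)).charpoly := by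
      by_contra hcon
      exact hq' (resultant_eq_zero_iff.2 ⟨Or.inl (LinearMap.charpoly_monic _).ne_zero, hcon⟩)
    have e1 : ∀ i, (∑ l, (q l : K) • (g l : Module.End K V)).restrict (hst i) =
        φ i fun l => (q l : K) := by
      intro i
      ext y
      rw [hφ]; rfl
    rw [e1, e1]
    exact h1

/-- A criterion in terms of dimensions. -/
lemma big_pair (hA : Stab R A) (hB : Stab R B)
    (hirr : ∀ U ≤ A, Stab R U → U = ⊥ ∨ U = A)
    (hdim : A ≠ ⊥ → Module.finrank K B < Module.finrank K A) {x y : V} (hx : x ∈ A)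
    (hy : y ∈ B) : ∃ u ∈ R, u x = x ∧ u y = 0 := by
  by_cases hx0 : x = 0
  · exact ⟨0, R.zero_mem, by rw [hx0]; rfl, rfl⟩
  set R0 := Subalgebra.toSubmodule R with hR0
  let U : Submodule K V :=
    { carrier := {v | ∃ u ∈ R, u y = 0 ∧ u x = v}
      add_mem' := by
        rintro _ _ ⟨u, hu, h0, rfl⟩ ⟨u', hu', h0', rfl⟩
        exact ⟨u + u', R.add_mem hu hu', by rw [LinearMap.add_apply, h0, h0', add_zero], rfl⟩
      zero_mem' := ⟨0, R.zero_mem, rfl, rfl⟩
      smul_mem' := by
        rintro c _ ⟨u, hu, h0, rfl⟩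
        exact ⟨c • u, R.smul_mem hu c, by rw [LinearMap.smul_apply, h0, smul_zero], rfl⟩ }
  have hU : U ≤ A := by
    rintro _ ⟨u, hu, -, rfl⟩
    exact hA u hu x hx
  have hUs : Stab R U := by
    rintro u hu _ ⟨r, hr, h0, rfl⟩
    exact ⟨u * r, R.mul_mem hu hr, by rw [Module.End.mul_apply, h0, map_zero], rfl⟩
  rcases hirr U hU hUs with h | h
  · exfalso
    let ex : R0 →ₗ[K] V := (LinearMap.applyₗ x) ∘ₗ R0.subtype
    let ey : R0 →ₗ[K] V := (LinearMap.applyₗ y) ∘ₗ R0.subtype
    have hker : LinearMap.ker ey ≤ LinearMap.ker ex := by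
      intro u hu
      have h1 : (u : Module.End K V) x ∈ U := ⟨u, u.2, hu, rfl⟩
      rw [h, Submodule.mem_bot] at h1
      exact h1
    have h1 := LinearMap.finrank_range_add_finrank_ker ex
    have h2 := LinearMap.finrank_range_add_finrank_ker ey
    have h3 := Submodule.finrank_mono hker
    have h4 : LinearMap.range ey ≤ B := by
      rintro _ ⟨u, rfl⟩
      exact hB u u.2 y hy
    have h5 : LinearMap.range ex = A := by
      refine (hirr _ ?_ ?_).resolve_left ?_
      · rintro _ ⟨u, rfl⟩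
        exact hA u u.2 x hx
      · rintro u hu _ ⟨r, rfl⟩
        exact ⟨⟨u * r, R.mul_mem hu r.2⟩, rfl⟩
      · intro h6
        apply hx0
        rw [← Submodule.mem_bot K, ← h6]
        exact ⟨⟨1, R.one_mem⟩, rfl⟩
    have h6 := Submodule.finrank_mono h4
    have h7 := hdim ((Submodule.ne_bot_iff _).2 ⟨x, hx, hx0⟩)
    rw [h5] at h1
    omega
  · have h1 : x ∈ U := by rw [h]; exact hx
    obtain ⟨u, hu, h0, hux⟩ := h1
    exact ⟨u, hu, hux, h0⟩

end Pool.Agent.U724C
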