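import Pool.Agent.U724B.Main
import Pool.Agent.U724C.Res
import Pool.Agent.X252.SCT

/-!
# Projectors onto sets of degrees: local conditions
-/

set_option autoImplicit false

open CategoryTheory AlgebraicGeometry Polynomial

universe u v w

namespace Pool.Agent.U724C

open Pool.Agent.H914 VarClass Obj WeilCohomology Pool.Agent.U724B Pool.Agent.X252.SCT
  Pool.Agent.X252.SCK

variable {k : Type u} [Field k] {𝒱 : VarClass k} {ops : CycleOps 𝒱}

/-- The algebra of the linear combinations, with coefficients in `K`, of the operators on `H(X)`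
given by algebraic cycles of codimension `dim X` on `X × X`. -/
noncomputable def corrAlg (W : WeilCohomology.{u, v} ops) (X : 𝒱.Obj) :
    Subalgebra W.K (Module.End W.K (W.H X)) where
  carrier := KOp W X X 0
  mul_mem' := fun ha hb => KOp.cast (KOp.comp ha hb) (add_zero 0)
  add_mem' := fun ha hb => Submodule.add_mem _ ha hb
  algebraMap_mem' := fun r => by
    rw [Algebra.algebraMap_eq_smul_one]
    exact Submodule.smul_mem _ _ (KOp.id X)

/-- The cohomology of `X` in the degrees in `S`. -/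
def part (W : WeilCohomology.{u, v} ops) (X : 𝒱.Obj) (S : Set ℕ) : Submodule W.K (W.H X) :=
  ⨆ i ∈ S, W.gr X i

/-- The linear combinations of algebraic correspondences which are zero on `H^j(X)`. -/
def killers (W : WeilCohomology.{u, v} ops) (X : 𝒱.Obj) (j : ℕ) :
    Submodule W.K (Module.End W.K (W.H X)) where
  carrier := {u | u ∈ corrAlg W X ∧ ∀ y ∈ W.gr X j, u y = 0}
  add_mem' := by
    rintro a b ⟨ha, ha'⟩ ⟨hb, hb'⟩
    exact ⟨(corrAlg W X).add_mem ha hb, fun y hy => by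
      rw [LinearMap.add_apply, ha' y hy, hb' y hy, add_zero]⟩
  zero_mem' := ⟨(corrAlg W X).zero_mem, fun y _ => rfl⟩
  smul_mem' := by
    rintro c a ⟨ha, ha'⟩
    exact ⟨(corrAlg W X).smul_mem ha c, fun y hy => by
      rw [LinearMap.smul_apply, ha' y hy, smul_zero]⟩

/-- A linear action `ρ` of the group `Γ` on the cohomology of `X` with the formal properties of the
action of a Galois group, for `X` defined over a smaller field: it respects the degrees and
conjugates algebraic correspondences into linear combinations of algebraic correspondences. -/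
structure IsCorrAct (W : WeilCohomology.{u, v} ops) (X : 𝒱.Obj) {Γ : Type w} [Group Γ]
    (ρ : Γ →* (W.H X ≃ₗ[W.K] W.H X)) : Prop where
  gr_mem : ∀ g i, ∀ x ∈ W.gr X i, ρ g x ∈ W.gr X i
  corr_mem : ∀ g (z : (X.prod X).Cycles), (X.prod X).IsCyc X.dim z →
    (ρ g).toLinearMap ∘ₗ W.corr (W.cl _ z) ∘ₗ (ρ g⁻¹).toLinearMap ∈ corrAlg W X

variable {W : WeilCohomology.{u, v} ops} {X : 𝒱.Obj}

lemma mem_corrAlg {u : Module.End W.K (W.H X)} : u ∈ corrAlg W X ↔ u ∈ KOp W X X 0 := Iff.rfl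

lemma corr_mem_alg {P : (X.prod X).Cycles} (hP : (X.prod X).IsCyc X.dim P) :
    W.corr (W.cl _ P) ∈ corrAlg W X :=
  mem_corrAlg.2 (KOp.gen (by omega) hP)

lemma alg_mem {u : Module.End W.K (W.H X)} (hu : u ∈ corrAlg W X) {i : ℕ} {x : W.H X}
    (hx : x ∈ W.gr X i) : u x ∈ W.gr X i := by
  have h := KOp.isHom (mem_corrAlg.1 hu) (i : ℤ) x (by rw [grZ_natCast]; exact hx)
  rwa [mul_zero, add_zero, grZ_natCast] at h

lemma part_mem {S : Set ℕ} {i : ℕ} (hi : i ∈ S) {x : W.H X} (hx : x ∈ W.gr X i) :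
    x ∈ part W X S :=
  (le_iSup₂_of_le (f := fun i (_ : i ∈ S) => W.gr X i) i hi le_rfl) hx

lemma part_le {S : Set ℕ} {T : Submodule W.K (W.H X)} (h : ∀ i ∈ S, W.gr X i ≤ T) :
    part W X S ≤ T := iSup₂_le h

lemma part_stab (S : Set ℕ) : Stab (corrAlg W X) (part W X S) := by
  intro u hu x hx
  have : part W X S ≤ (part W X S).comap u :=
    part_le fun i hi z hz => part_mem hi (alg_mem hu hz)
  exact this hx

lemma part_isCompl (S : Set ℕ) : IsCompl (part W X S) (part W X Sᶜ) := by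
  have h1 := (W.isInternal X).submodule_iSupIndep
  have h2 := (W.isInternal X).submodule_iSup_eq_top
  constructor
  · exact h1.disjoint_biSup_biSup disjoint_compl_right
  · rw [codisjoint_iff, eq_top_iff, ← h2]
    apply iSup_le
    intro i
    by_cases hi : i ∈ S
    · exact le_sup_of_le_left (fun x hx => part_mem hi hx)
    · exact le_sup_of_le_right (fun x hx => part_mem hi hx)

lemma sep_pairs {S : Set ℕ} (h : ∀ i ∈ S, ∀ j ∉ S, ∀ x ∈ W.gr X i, ∀ y ∈ W.gr X j,
    ∃ u ∈ corrAlg W X, u x = x ∧ u y = 0) :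
    Sep (corrAlg W X) (part W X S) (part W X Sᶜ) := by
  have h1 := sep_of_pairs (R := corrAlg W X) (fun i : Fin (2 * X.dim + 1) => W.gr X i)
    {i | (i : ℕ) ∈ S} (fun i u hu x hx => alg_mem hu hx)
    (fun i hi x hx j hj y hy => h i hi j hj x hx y hy)
  have e : ∀ T : Set ℕ, (⨆ i ∈ {i : Fin (2 * X.dim + 1) | (i : ℕ) ∈ T}, W.gr X i) =
      part W X T := by
    intro T
    apply le_antisymm
    · exact iSup₂_le fun i hi x hx => part_mem (i := (i : ℕ)) hi hx
    · apply part_le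
      intro i hi
      by_cases hd : i < 2 * X.dim + 1
      · exact le_iSup₂_of_le (f := fun (i : Fin (2 * X.dim + 1))
          (_ : i ∈ {i : Fin (2 * X.dim + 1) | (i : ℕ) ∈ T}) => W.gr X i) ⟨i, hd⟩ hi le_rfl
      · rw [W.gr_eq_bot X i (by omega)]
        exact bot_le
  rw [e S] at h1
  have e2 : ({i : Fin (2 * X.dim + 1) | (i : ℕ) ∈ S}ᶜ : Set _) =
      {i : Fin (2 * X.dim + 1) | (i : ℕ) ∈ Sᶜ} := rfl
  rw [e2, e Sᶜ] at h1
  exact h1

lemma isAlg_aeval {φ : Module.End W.K (W.H X)} (h : IsAlg W X φ) (f : ℚ[X]) :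
    IsAlg W X (aeval φ (f.map (algebraMap ℚ W.K))) := by
  have h1 : IsAlg W X (1 : Module.End W.K (W.H X)) := by
    have := IsAlg.map (W := W) (𝟙 X)
    have e : (W.map (𝟙 X)).toLinearMap = 1 := LinearMap.ext fun x => W.map_id X x
    rwa [e] at this
  have hpow : ∀ n : ℕ, IsAlg W X (φ ^ n) := by
    intro n
    induction n with
    | zero => rw [pow_zero]; exact h1
    | succ n ih => rw [pow_succ]; exact ih.mul h
  induction f using Polynomial.induction_on' with
  | add p q hp hq => rw [Polynomial.map_add, map_add]; exact hp.add hq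
  | monomial n c =>
    rw [Polynomial.map_monomial, aeval_monomial, ← Algebra.smul_def]
    exact (hpow n).smul c

/-- the operators in the algebra respect the degrees -/
lemma corr_stab {P : (X.prod X).Cycles} (hP : (X.prod X).IsCyc X.dim P) (i : ℕ) :
    ∀ x ∈ W.gr X i, W.corr (W.cl (X.prod X) P) x ∈ W.gr X i :=
  fun _ hx => alg_mem (corr_mem_alg hP) hx

lemma sep_of_le {S : Set ℕ} {u : Module.End W.K (W.H X)}
    (h1 : ∀ i ∈ S, i < 2 * X.dim + 1 → ∀ x ∈ W.gr X i, u x = x)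
    (h0 : ∀ i ∉ S, i < 2 * X.dim + 1 → ∀ x ∈ W.gr X i, u x = 0) :
    (∀ i ∈ S, ∀ x ∈ W.gr X i, u x = x) ∧ ∀ i ∉ S, ∀ x ∈ W.gr X i, u x = 0 := by
  constructor
  · intro i hi x hx
    by_cases hd : i < 2 * X.dim + 1
    · exact h1 i hi hd x hx
    · rw [W.gr_eq_bot X i (by omega), Submodule.mem_bot] at hx
      rw [hx, map_zero]
  · intro i hi x hx
    by_cases hd : i < 2 * X.dim + 1
    · exact h0 i hi hd x hx
    · rw [W.gr_eq_bot X i (by omega), Submodule.mem_bot] at hx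
      rw [hx, map_zero]

lemma sep_iff {S : Set ℕ} : Sep (corrAlg W X) (part W X S) (part W X Sᶜ) ↔
    ∃ u ∈ corrAlg W X, (∀ i ∈ S, ∀ x ∈ W.gr X i, u x = x) ∧ ∀ i ∉ S, ∀ x ∈ W.gr X i, u x = 0 := by
  constructor
  · rintro ⟨u, hu, h1, h0⟩
    exact ⟨u, hu, fun i hi x hx => h1 x (part_mem hi hx), fun i hi x hx => h0 x (part_mem hi hx)⟩
  · rintro ⟨u, hu, h1, h0⟩
    refine ⟨u, hu, fun x hx => ?_, fun x hx => ?_⟩
    · have : part W X S ≤ LinearMap.eqLocus u LinearMap.id :=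
        part_le fun i hi z hz => h1 i hi z hz
      exact this hx
    · have : part W X Sᶜ ≤ LinearMap.ker u := part_le fun i hi z hz => h0 i hi z hz
      exact this hx

open Classical in
/-- The main step for a cycle whose characteristic polynomials are coprime. -/
lemma bezout {S : Set ℕ} {a : Module.End W.K (W.H X)}
    (hst : ∀ i : Fin (2 * X.dim + 1), ∀ x ∈ W.gr X i, a x ∈ W.gr X i)
    {u v : W.K[X]}
    (h : u * (∏ i ∈ Finset.univ.filter (fun i : Fin (2 * X.dim + 1) => (i : ℕ) ∈ S),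
        (a.restrict (hst i)).charpoly) +
      v * (∏ j ∈ (Finset.univ.filter (fun i : Fin (2 * X.dim + 1) => (i : ℕ) ∈ S))ᶜ,
        (a.restrict (hst j)).charpoly) = 1) :
    (∀ i ∈ S, ∀ x ∈ W.gr X i, aeval a (v * (∏ j ∈ (Finset.univ.filter
        (fun i : Fin (2 * X.dim + 1) => (i : ℕ) ∈ S))ᶜ, (a.restrict (hst j)).charpoly)) x = x) ∧
      ∀ i ∉ S, ∀ x ∈ W.gr X i, aeval a (v * (∏ j ∈ (Finset.univ.filter
        (fun i : Fin (2 * X.dim + 1) => (i : ℕ) ∈ S))ᶜ, (a.restrict (hst j)).charpoly)) x = 0 := by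
  obtain ⟨h1, h0⟩ := sep_poly (fun i : Fin (2 * X.dim + 1) => W.gr X i) _ hst h
  apply sep_of_le
  · intro i hi hd x hx
    exact h1 ⟨i, hd⟩ (Finset.mem_filter.2 ⟨Finset.mem_univ _, hi⟩) x hx
  · intro i hi hd x hx
    exact h0 ⟨i, hd⟩ (fun h => hi (Finset.mem_filter.1 h).2) x hx

open Classical in
lemma prod_coprime {S : Set ℕ} {a : Module.End W.K (W.H X)}
    (hst : ∀ i : Fin (2 * X.dim + 1), ∀ x ∈ W.gr X i, a x ∈ W.gr X i)
    (h : ∀ i ∈ S, ∀ j ∉ S, Coprime (W.gr X i) (W.gr X j) a) :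
    IsCoprime (∏ i ∈ Finset.univ.filter (fun i : Fin (2 * X.dim + 1) => (i : ℕ) ∈ S),
        (a.restrict (hst i)).charpoly)
      (∏ j ∈ (Finset.univ.filter (fun i : Fin (2 * X.dim + 1) => (i : ℕ) ∈ S))ᶜ,
        (a.restrict (hst j)).charpoly) := by
  apply IsCoprime.prod_left
  intro i hi
  apply IsCoprime.prod_right
  intro j hj
  obtain ⟨_, _, hc⟩ := h i (Finset.mem_filter.1 hi).2 j
    (fun hj' => Finset.mem_compl.1 hj (Finset.mem_filter.2 ⟨Finset.mem_univ _, hj'⟩))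
  exact hc

/-- **Local conditions for the projector onto a set of degrees.** -/
theorem tfae (W : WeilCohomology.{u, v} ops) (X : 𝒱.Obj) (S : Set ℕ) :
    List.TFAE [
      Sep (corrAlg W X) (part W X S) (part W X Sᶜ),
      ∀ i ∈ S, ∀ j ∉ S, ∀ x ∈ W.gr X i, ∀ y ∈ W.gr X j, ∃ u ∈ corrAlg W X, u x = x ∧ u y = 0,
      Splits (corrAlg W X) (part W X S) (part W X Sᶜ),
      ¬ Linked (corrAlg W X) (part W X S) (part W X Sᶜ),
      ∃ P, (X.prod X).IsCyc X.dim P ∧ ∀ i ∈ S, ∀ j ∉ S,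
        Coprime (W.gr X i) (W.gr X j) (W.corr (W.cl (X.prod X) P))] := by
  classical
  tfae_have 1 → 3 := splits_of_sep
  tfae_have 3 → 2 := by
    intro h i hi j hj x hx y hy
    exact pairs_of_splits (part_isCompl S).disjoint (part_stab S) (part_stab Sᶜ) h x
      (part_mem hi hx) y (part_mem hj hy)
  tfae_have 2 → 1 := sep_pairs
  tfae_have 1 → 4 := not_linked_of_sep
  tfae_have 4 → 3 := by
    intro h
    by_contra hcon
    exact h (linked_of_not_splits (part_isCompl S) (part_stab S) (part_stab Sᶜ) hcon)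
  tfae_have 5 → 1 := by
    rintro ⟨P, hP, h⟩
    obtain ⟨u, v, huv⟩ := prod_coprime (fun i => corr_stab hP i) h
    exact sep_iff.2 ⟨_, Algebra.adjoin_le (Set.singleton_subset_iff.2 (corr_mem_alg hP))
      (aeval_mem_adjoin_singleton W.K _), bezout (fun i => corr_stab hP i) huv⟩
  tfae_have 1 → 5 := by
    intro h
    obtain ⟨u, hu, h1, h0⟩ := sep_iff.1 h
    obtain ⟨a, ⟨P, hP, rfl⟩, h⟩ := coprime_of_sep (R := corrAlg W X)
      (fun i : Fin (2 * X.dim + 1) => W.gr X i) {i | (i : ℕ) ∈ S}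
      (fun u hu i x hx => alg_mem hu hx)
      {φ | IsAlg W X φ} IsAlg.zero (fun a ha b hb => IsAlg.add ha hb)
      (fun q a ha => IsAlg.smul q ha) (fun u hu => by
        refine Submodule.span_mono ?_ (mem_corrAlg.1 hu)
        rintro φ ⟨p, hp, z, hz, rfl⟩
        obtain rfl : p = X.dim := by omega
        exact ⟨z, hz, rfl⟩)
      (fun a ⟨P, hP, h⟩ => h ▸ corr_mem_alg hP)
      ⟨u, hu, fun i hi x hx => h1 i hi x hx, fun i hi x hx => h0 i hi x hx⟩
    refine ⟨P, hP, fun i hi j hj => ?_⟩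
    have hbot : ∀ i, ¬ i < 2 * X.dim + 1 →
        ((W.corr (W.cl (X.prod X) P)).restrict (corr_stab hP i)).charpoly = 1 := by
      intro i hi
      have h2 := W.gr_eq_bot X i (by omega)
      have h3 : Module.finrank W.K (W.gr X i) = 0 := by rw [h2]; exact finrank_bot _ _
      refine (Polynomial.Monic.natDegree_eq_zero (LinearMap.charpoly_monic _)).1 ?_
      rw [LinearMap.charpoly_natDegree, h3]
    by_cases hi' : i < 2 * X.dim + 1
    · by_cases hj' : j < 2 * X.dim + 1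
      · exact h ⟨i, hi'⟩ hi ⟨j, hj'⟩ hj
      · refine ⟨corr_stab hP i, corr_stab hP j, ?_⟩
        rw [hbot j hj']
        exact isCoprime_one_right
    · refine ⟨corr_stab hP i, corr_stab hP j, ?_⟩
      rw [hbot i hi']
      exact isCoprime_one_left
  tfae_finish

/-- All algebraic correspondences of degree zero have on all `H^i(X)` characteristic polynomials with
rational coefficients. -/
def RationalCharpolys (W : WeilCohomology.{u, v} ops) (X : 𝒱.Obj) : Prop :=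
  ∀ P, (X.prod X).IsCyc X.dim P → ∀ i, RatPoly (W.gr X i) (W.corr (W.cl (X.prod X) P))

/-- rational coefficients -/
theorem degreesAlg_iff (W : WeilCohomology.{u, v} ops) (X : 𝒱.Obj) (S : Set ℕ)
    (hQ : RationalCharpolys W X) :
    DegreesAlg W X S ↔ Sep (corrAlg W X) (part W X S) (part W X Sᶜ) := by
  classical
  constructor
  · rintro ⟨P, hP, h⟩
    exact sep_iff.2 ⟨_, corr_mem_alg hP, fun i hi x hx => (h i x hx).1 hi,
      fun i hi x hx => (h i x hx).2 hi⟩
  · intro h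
    obtain ⟨P, hP, hc⟩ := ((tfae W X S).out 0 4).1 h
    set a := W.corr (W.cl (X.prod X) P) with ha
    have hst : ∀ i : Fin (2 * X.dim + 1), ∀ x ∈ W.gr X i, a x ∈ W.gr X i :=
      fun i => corr_stab hP i
    have hrat : ∀ i : Fin (2 * X.dim + 1),
        ∃ f : ℚ[X], f.map (algebraMap ℚ W.K) = (a.restrict (hst i)).charpoly := by
      intro i
      rw [← Polynomial.mem_lifts, Polynomial.lifts_iff_coeff_lifts]
      intro n
      obtain ⟨_, hq⟩ := hQ P hP i
      obtain ⟨q, hq⟩ := hq n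
      exact ⟨q, by rw [hq]; rfl⟩
    choose f hf using hrat
    have hprod : ∀ s : Finset (Fin (2 * X.dim + 1)),
        (∏ i ∈ s, f i).map (algebraMap ℚ W.K) = ∏ i ∈ s, (a.restrict (hst i)).charpoly := by
      intro s
      rw [Polynomial.map_prod]
      exact Finset.prod_congr rfl fun i _ => hf i
    have hc' := prod_coprime hst hc
    rw [← hprod, ← hprod, Polynomial.isCoprime_map] at hc'
    obtain ⟨u, v, huv⟩ := hc'
    have huv' := congrArg (Polynomial.map (algebraMap ℚ W.K)) huv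
    rw [Polynomial.map_add, Polynomial.map_mul, Polynomial.map_mul, Polynomial.map_one, hprod,
      hprod] at huv'
    obtain ⟨h1, h2⟩ := bezout hst huv'
    have h3 := isAlg_aeval (φ := a) ⟨P, hP, rfl⟩
      (v * ∏ i ∈ (Finset.univ.filter (fun i : Fin (2 * X.dim + 1) => (i : ℕ) ∈ S))ᶜ, f i)
    rw [Polynomial.map_mul, hprod] at h3
    obtain ⟨Q, hQ, hQ'⟩ := h3
    refine ⟨Q, hQ, fun j x hx => ⟨fun hj => ?_, fun hj => ?_⟩⟩
    · rw [cyAct, hQ']
      exact h1 j hj x hx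
    · rw [cyAct, hQ']
      exact h2 j hj x hx

/-- A criterion in terms of dimensions. -/
theorem sep_of_big (S : Set ℕ) (hirr : ∀ i ∈ S, ∀ U ≤ W.gr X i, Stab (corrAlg W X) U →
      U = ⊥ ∨ U = W.gr X i)
    (hdim : ∀ i ∈ S, ∀ j ∉ S, W.gr X i ≠ ⊥ →
      Module.finrank W.K (W.gr X j) < Module.finrank W.K (W.gr X i)) :
    Sep (corrAlg W X) (part W X S) (part W X Sᶜ) := by
  apply sep_pairs
  intro i hi j hj x hx y hy
  exact big_pair (fun u hu z hz => alg_mem hu hz) (fun u hu z hz => alg_mem hu hz) (hirr i hi)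
    (hdim i hi j hj) hx hy

section Gp

variable {Γ : Type w} [Group Γ] {ρ : Γ →* (W.H X ≃ₗ[W.K] W.H X)}

lemma alg_conj (hρ : IsCorrAct W X ρ) (g : Γ) {u : Module.End W.K (W.H X)}
    (hu : u ∈ corrAlg W X) :
    (ρ g).toLinearMap ∘ₗ u ∘ₗ (ρ g⁻¹).toLinearMap ∈ corrAlg W X := by
  have hu' := mem_corrAlg.1 hu
  clear hu
  induction hu' using Submodule.span_induction with
  | mem x hx =>
    obtain ⟨p, hp, z, hz, rfl⟩ := hx
    obtain rfl : p = X.dim := by omega
    exact hρ.corr_mem g z hz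
  | zero => rw [LinearMap.zero_comp, LinearMap.comp_zero]; exact (corrAlg W X).zero_mem
  | add x y _ _ hx hy =>
    rw [LinearMap.add_comp, LinearMap.comp_add]; exact (corrAlg W X).add_mem hx hy
  | smul c x _ hx =>
    rw [LinearMap.smul_comp, LinearMap.comp_smul]; exact (corrAlg W X).smul_mem hx c

lemma killers_mul (j : ℕ) : ∀ a ∈ killers W X j, ∀ b ∈ killers W X j, a * b ∈ killers W X j := by
  rintro a ⟨ha, ha'⟩ b ⟨hb, hb'⟩
  exact ⟨(corrAlg W X).mul_mem ha hb, fun y hy => by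
    rw [Module.End.mul_apply, hb' y hy, map_zero]⟩

lemma killers_conj (hρ : IsCorrAct W X ρ) (j : ℕ) (g : Γ) : ∀ a ∈ killers W X j,
    (ρ g).toLinearMap ∘ₗ a ∘ₗ (ρ g⁻¹).toLinearMap ∈ killers W X j := by
  rintro a ⟨ha, ha'⟩
  refine ⟨alg_conj hρ g ha, fun y hy => ?_⟩
  change ρ g (a (ρ g⁻¹ y)) = 0
  rw [ha' _ (hρ.gr_mem g⁻¹ j y hy), map_zero]

lemma killers_stab (i j : ℕ) : StabOp (killers W X j) (W.gr X i) :=
  fun _ ha _ hx => alg_mem ha.1 hx

/-- **Group actions.** -/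
theorem sep_iff_irr (hρ : IsCorrAct W X ρ) (S : Set ℕ)
    (hss : ∀ i ∈ S, SemisimpleGp ρ (W.gr X i)) :
    Sep (corrAlg W X) (part W X S) (part W X Sᶜ) ↔
      ∀ i ∈ S, ∀ j ∉ S, ∀ U ≤ W.gr X i, IrrGp ρ U → U ≤ opSpan (killers W X j) U := by
  constructor
  · rintro ⟨u, hu, h1, h0⟩ i hi j hj U hU _ x hx
    refine Submodule.subset_span ⟨u, ⟨hu, fun y hy => h0 y (part_mem hj hy)⟩, x, hx, ?_⟩
    exact h1 x (part_mem hi (hU hx))
  · intro h
    apply sep_pairs
    intro i hi j hj x hx y hy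
    obtain ⟨r, hr, h1⟩ := local_global (killers_mul j) (killers_conj hρ j) (killers_stab i j)
      (fun g z hz => hρ.gr_mem g i z hz) (hss i hi) (h i hi j hj)
    exact ⟨r, hr.1, h1 x hx, hr.2 y hy⟩

/-- the case of irreducible actions -/
theorem sep_iff_ne (hρ : IsCorrAct W X ρ) (S : Set ℕ)
    (hirr : ∀ i ∈ S, W.gr X i = ⊥ ∨ IrrGp ρ (W.gr X i)) :
    Sep (corrAlg W X) (part W X S) (part W X Sᶜ) ↔
      ∀ i ∈ S, ∀ j ∉ S, W.gr X i ≠ ⊥ → ∃ u ∈ killers W X j, ∃ x ∈ W.gr X i, u x ≠ 0 := by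
  constructor
  · rintro ⟨u, hu, h1, h0⟩ i hi j hj hne
    obtain ⟨x, hx, hx0⟩ := (Submodule.ne_bot_iff _).1 hne
    refine ⟨u, ⟨hu, fun y hy => h0 y (part_mem hj hy)⟩, x, hx, ?_⟩
    rw [h1 x (part_mem hi hx)]
    exact hx0
  · intro h
    apply sep_pairs
    intro i hi j hj x hx y hy
    by_cases h0 : W.gr X i = ⊥
    · rw [h0, Submodule.mem_bot] at hx
      exact ⟨0, (corrAlg W X).zero_mem, by rw [hx]; rfl, rfl⟩
    · obtain ⟨r, hr, h1⟩ := irreducible_case (killers_mul j) (killers_conj hρ j)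
        (killers_stab i j) ((hirr i hi).resolve_left h0) (h i hi j hj h0)
      exact ⟨r, hr.1, h1 x hx, hr.2 y hy⟩

end Gp

/-- Some linear combination of algebraic correspondences, with coefficients in `K`, is the identity
on the `H^i(X)` with `i` in `S` and zero on the other `H^j(X)`. -/
def KDegreesAlg (W : WeilCohomology.{u, v} ops) (X : 𝒱.Obj) (S : Set ℕ) : Prop :=
  ∃ u ∈ corrAlg W X, (∀ i ∈ S, ∀ x ∈ W.gr X i, u x = x) ∧ ∀ j ∉ S, ∀ y ∈ W.gr X j, u y = 0

/-- For all `i` in `S` the correspondences act irreducibly on `H^i(X)`, if it is not zero, and its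
dimension is larger than the dimensions of the `H^j(X)` with `j` not in `S`. -/
def LargeIrreducible (W : WeilCohomology.{u, v} ops) (X : 𝒱.Obj) (S : Set ℕ) : Prop :=
  ∀ i ∈ S, (∀ U ≤ W.gr X i, Stab (corrAlg W X) U → U = ⊥ ∨ U = W.gr X i) ∧
    ∀ j ∉ S, W.gr X i ≠ ⊥ →
      Module.finrank W.K (W.gr X j) < Module.finrank W.K (W.gr X i)

/-- All conditions. -/
theorem main (W : WeilCohomology.{u, v} ops) (X : 𝒱.Obj) (S : Set ℕ) :
    (RationalCharpolys W X → (DegreesAlg W X S ↔ KDegreesAlg W X S)) ∧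
    List.TFAE [
      KDegreesAlg W X S,
      ∀ i ∈ S, ∀ j ∉ S, ∀ x ∈ W.gr X i, ∀ y ∈ W.gr X j, ∃ u ∈ corrAlg W X, u x = x ∧ u y = 0,
      Splits (corrAlg W X) (part W X S) (part W X Sᶜ),
      ¬ Linked (corrAlg W X) (part W X S) (part W X Sᶜ),
      ∃ P, (X.prod X).IsCyc X.dim P ∧ ∀ i ∈ S, ∀ j ∉ S,
        Coprime (W.gr X i) (W.gr X j) (W.corr (W.cl (X.prod X) P))] ∧
    (LargeIrreducible W X S → KDegreesAlg W X S) ∧
    ∀ (Γ : Type w) [Group Γ] (ρ : Γ →* (W.H X ≃ₗ[W.K] W.H X)), IsCorrAct W X ρ →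
      ((∀ i ∈ S, SemisimpleGp ρ (W.gr X i)) → (KDegreesAlg W X S ↔
        ∀ i ∈ S, ∀ j ∉ S, ∀ U ≤ W.gr X i, IrrGp ρ U → U ≤ opSpan (killers W X j) U)) ∧
      ((∀ i ∈ S, W.gr X i = ⊥ ∨ IrrGp ρ (W.gr X i)) → (KDegreesAlg W X S ↔
        ∀ i ∈ S, ∀ j ∉ S, W.gr X i ≠ ⊥ → ∃ u ∈ killers W X j, ∃ x ∈ W.gr X i, u x ≠ 0)) := by
  have e : KDegreesAlg W X S ↔ Sep (corrAlg W X) (part W X S) (part W X Sᶜ) := sep_iff.symm
  refine ⟨fun h => ?_, ?_, fun h => ?_, fun Γ _ ρ hρ => ⟨fun h => ?_, fun h => ?_⟩⟩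
  · rw [e]; exact degreesAlg_iff W X S h
  · rw [e]; exact tfae W X S
  · rw [e]; exact sep_of_big S (fun i hi => (h i hi).1) fun i hi => (h i hi).2
  · rw [e]; exact sep_iff_irr hρ S h
  · rw [e]; exact sep_iff_ne hρ S h

end Pool.Agent.U724C
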