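import Pool.Agent.U724C.SysDefs
import Pool.Agent.U724C.Main
import Pool.Agent.U724B.Bridge

/-!
# Translation of the results to graded modules over the correspondences
-/

set_option autoImplicit false

open CategoryTheory AlgebraicGeometry Module Polynomial

universe u v w

namespace Pool.Agent.U724C

open Pool.Agent.H914 VarClass Obj WeilCohomology Pool.Agent.U724B Pool.Agent.X252.SCT
  Pool.Agent.X252.SCK

variable {k : Type u} [Field k] {𝒱 : VarClass k} {ops : CycleOps 𝒱}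
  {W : WeilCohomology.{u, v} ops} {X : 𝒱.Obj} {T : Set ℕ}

lemma corr_iff {u : W.H X → W.H X} :
    (cohSys W X).Corr u ↔ ∃ u' ∈ corrAlg W X, ∀ x, u' x = u x :=
  op_iff (W := W) (X := X) (D := 0) (d := 0)

lemma corr_of {u : Module.End W.K (W.H X)} (hu : u ∈ corrAlg W X) :
    (cohSys W X).Corr (fun x => u x) := corr_iff.2 ⟨u, hu, fun _ => rfl⟩

lemma cyc_iff' {u : W.H X → W.H X} : (cohSys W X).Cyc u ↔
    ∃ P, (X.prod X).IsCyc X.dim P ∧ ∀ x, W.corr (W.cl (X.prod X) P) x = u x := by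
  constructor
  · rintro ⟨p, hp, z, hz, h⟩
    obtain rfl : p = X.dim := by omega
    exact ⟨z, hz, h⟩
  · rintro ⟨z, hz, h⟩
    exact ⟨X.dim, by omega, z, hz, h⟩

lemma corrProj_bridge : (cohSys W X).CorrProj T ↔ KDegreesAlg W X T := by
  constructor
  · rintro ⟨u, hu, h⟩
    obtain ⟨u', hu', e⟩ := corr_iff.1 hu
    exact ⟨u', hu', fun i hi x hx => (e x).trans ((h i x hx).1 hi),
      fun i hi x hx => (e x).trans ((h i x hx).2 hi)⟩
  · rintro ⟨u, hu, h1, h0⟩
    exact ⟨fun x => u x, corr_of hu, fun i x hx => ⟨fun hi => h1 i hi x hx, fun hi => h0 i hi x hx⟩⟩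

lemma cycleProj_bridge : (cohSys W X).CycleProj T ↔ DegreesAlg W X T := by
  constructor
  · rintro ⟨u, hu, h⟩
    obtain ⟨P, hP, e⟩ := cyc_iff'.1 hu
    exact ⟨P, hP, fun i x hx => ⟨fun hi => (e x).trans ((h i x hx).1 hi),
      fun hi => (e x).trans ((h i x hx).2 hi)⟩⟩
  · rintro ⟨P, hP, h⟩
    exact ⟨fun x => W.corr (W.cl (X.prod X) P) x, cyc_iff'.2 ⟨P, hP, fun _ => rfl⟩, h⟩

lemma pairs_bridge : (cohSys W X).Pairs T ↔
    ∀ i ∈ T, ∀ j ∉ T, ∀ x ∈ W.gr X i, ∀ y ∈ W.gr X j, ∃ u ∈ corrAlg W X, u x = x ∧ u y = 0 := by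
  constructor
  · intro h i hi j hj x hx y hy
    obtain ⟨u, hu, h1, h0⟩ := h i hi j hj x hx y hy
    obtain ⟨u', hu', e⟩ := corr_iff.1 hu
    exact ⟨u', hu', (e x).trans h1, (e y).trans h0⟩
  · intro h i hi j hj x hx y hy
    obtain ⟨u, hu, h1, h0⟩ := h i hi j hj x hx y hy
    exact ⟨fun x => u x, corr_of hu, h1, h0⟩

lemma stable_bridge {U : Submodule W.K (W.H X)} :
    (cohSys W X).Stable U ↔ Stab (corrAlg W X) U := by
  constructor
  · intro h u hu x hx
    exact h _ (corr_of hu) x hx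
  · intro h u hu x hx
    obtain ⟨u', hu', e⟩ := corr_iff.1 hu
    have := h u' hu' x hx
    rwa [e] at this

lemma splitting_bridge : (cohSys W X).Splitting T ↔
    Splits (corrAlg W X) (part W X T) (part W X Tᶜ) := by
  constructor
  · intro h U hU
    exact h U (stable_bridge.2 hU)
  · intro h U hU
    exact h U (stable_bridge.1 hU)

lemma isFactor_bridge {A M' M : Submodule W.K (W.H X)} :
    (cohSys W X).IsFactor A M' M ↔ Factor (corrAlg W X) A M' M := by
  constructor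
  · rintro ⟨h1, h2, h3, h4, h5⟩
    exact ⟨stable_bridge.1 h1, stable_bridge.1 h2, h3, h4, fun N hN => h5 N (stable_bridge.2 hN)⟩
  · rintro ⟨h1, h2, h3, h4, h5⟩
    exact ⟨stable_bridge.2 h1, stable_bridge.2 h2, h3, h4, fun N hN => h5 N (stable_bridge.1 hN)⟩

lemma linked_bridge {A B : Submodule W.K (W.H X)} :
    (cohSys W X).Linked A B ↔ Linked (corrAlg W X) A B := by
  constructor
  · rintro ⟨M', M, N', N, hM, hN, f, hf⟩
    let F : W.H X →ₗ[W.K] W.H X :=
      { toFun := f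
        map_add' := hf.add
        map_smul' := hf.smul }
    refine ⟨M', M, N', N, isFactor_bridge.1 hM, isFactor_bridge.1 hN,
      F.restrict (p := M) (q := N) hf.mem, fun x => hf.ker x x.2, fun y hy => ?_,
      fun u hu x hx => hf.comm _ (corr_of hu) x x.2⟩
    obtain ⟨x, hx, h⟩ := hf.surj y hy
    exact ⟨⟨x, hx⟩, h⟩
  · rintro ⟨M', M, N', N, hM, hN, f, h1, h2, h3⟩
    obtain ⟨F, hF⟩ := LinearMap.exists_extend (N.subtype ∘ₗ f)
    have hF' : ∀ (x : W.H X) (hx : x ∈ M), F x = f ⟨x, hx⟩ := fun x hx =>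
      LinearMap.congr_fun hF ⟨x, hx⟩
    refine ⟨M', M, N', N, isFactor_bridge.2 hM, isFactor_bridge.2 hN, F, F.map_add, F.map_smul,
      fun x hx => ?_, fun x hx => ?_, fun y hy => ?_, fun u hu x hx => ?_⟩
    · rw [hF' x hx]
      exact (f ⟨x, hx⟩).2
    · rw [hF' x hx]
      exact h1 ⟨x, hx⟩
    · obtain ⟨x, h⟩ := h2 y hy
      refine ⟨x, x.2, ?_⟩
      rw [hF' x x.2]
      exact h
    · obtain ⟨u', hu', e⟩ := corr_iff.1 hu
      obtain rfl : (fun x => u' x) = u := funext e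
      have hux : u' x ∈ M := hM.2.1 u' hu' x hx
      have h4 := h3 u' hu' ⟨x, hx⟩ hux
      change F (u' x) - u' (F x) ∈ N'
      rw [hF' _ hux, hF' x hx]
      exact h4

lemma isCharpoly_bridge {U : Submodule W.K (W.H X)} {a : Module.End W.K (W.H X)} {f : W.K[X]} :
    (cohSys W X).IsCharpoly U (fun x => a x) f ↔
      ∃ h : ∀ x ∈ U, a x ∈ U, (a.restrict h).charpoly = f := by
  constructor
  · rintro ⟨b, hb, rfl⟩
    have h : ∀ x ∈ U, a x ∈ U := fun x hx => by
      have h1 : ((b ⟨x, hx⟩ : U) : W.H X) = a x := hb ⟨x, hx⟩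
      rw [← h1]
      exact (b ⟨x, hx⟩).2
    refine ⟨h, ?_⟩
    have e : a.restrict h = b := LinearMap.ext fun x => Subtype.ext (hb x).symm
    rw [e]
  · rintro ⟨h, rfl⟩
    exact ⟨a.restrict h, fun _ => rfl, rfl⟩

lemma coprime_bridge : (cohSys W X).CoprimeCycle T ↔
    ∃ P, (X.prod X).IsCyc X.dim P ∧ ∀ i ∈ T, ∀ j ∉ T,
      Coprime (W.gr X i) (W.gr X j) (W.corr (W.cl (X.prod X) P)) := by
  constructor
  · rintro ⟨u, hu, h⟩
    obtain ⟨P, hP, e⟩ := cyc_iff'.1 hu
    obtain rfl : (fun x => W.corr (W.cl (X.prod X) P) x) = u := funext e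
    refine ⟨P, hP, fun i hi j hj => ?_⟩
    obtain ⟨f, g, hf, hg, hc⟩ := h i hi j hj
    obtain ⟨h1, rfl⟩ := isCharpoly_bridge.1 hf
    obtain ⟨h2, rfl⟩ := isCharpoly_bridge.1 hg
    exact ⟨h1, h2, hc⟩
  · rintro ⟨P, hP, h⟩
    refine ⟨fun x => W.corr (W.cl (X.prod X) P) x, cyc_iff'.2 ⟨P, hP, fun _ => rfl⟩,
      fun i hi j hj => ?_⟩
    obtain ⟨h1, h2, hc⟩ := h i hi j hj
    exact ⟨_, _, isCharpoly_bridge.2 ⟨h1, rfl⟩, isCharpoly_bridge.2 ⟨h2, rfl⟩, hc⟩

lemma rational_bridge (h : (cohSys W X).Rational) : RationalCharpolys W X := by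
  intro P hP i
  obtain ⟨f, hf, hq⟩ := h (fun x => W.corr (W.cl (X.prod X) P) x)
    (cyc_iff'.2 ⟨P, hP, fun _ => rfl⟩) i
  obtain ⟨h1, rfl⟩ := isCharpoly_bridge.1 hf
  exact ⟨h1, hq⟩

lemma large_bridge (h : (cohSys W X).Large T) : LargeIrreducible W X T :=
  fun i hi => ⟨fun U hU hs => (h i hi).1 U hU (stable_bridge.2 hs), (h i hi).2⟩

section Gp

variable {Γ : Type w} [Group Γ]

/-- the action as a homomorphism -/
noncomputable def toRho (A : (cohSys W X).Action Γ) : Γ →* (W.H X ≃ₗ[W.K] W.H X) where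
  toFun g :=
    { toFun := A.app g
      map_add' := A.add g
      map_smul' := A.smul g
      invFun := A.app g⁻¹
      left_inv := fun x => by rw [← A.mul, inv_mul_cancel, A.one]
      right_inv := fun x => by rw [← A.mul, mul_inv_cancel, A.one] }
  map_one' := by
    apply LinearEquiv.ext
    intro x
    exact A.one x
  map_mul' g h := by
    apply LinearEquiv.ext
    intro x
    exact A.mul g h x

lemma isCorrAct_toRho (A : (cohSys W X).Action Γ) : IsCorrAct W X (toRho A) where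
  gr_mem := A.gr_mem
  corr_mem g z hz := by
    obtain ⟨u', hu', e⟩ := corr_iff.1 (A.conj g (fun x => W.corr (W.cl (X.prod X) z) x)
      (cyc_iff'.2 ⟨z, hz, fun _ => rfl⟩))
    have h : (toRho A g).toLinearMap ∘ₗ W.corr (W.cl (X.prod X) z) ∘ₗ
        (toRho A g⁻¹).toLinearMap = u' := LinearMap.ext fun x => (e x).symm
    rw [h]
    exact hu'

lemma stableA_bridge (A : (cohSys W X).Action Γ) (U : Submodule W.K (W.H X)) :
    A.Stable U ↔ StabGp (toRho A) U := Iff.rfl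

lemma irreducible_bridge (A : (cohSys W X).Action Γ) (U : Submodule W.K (W.H X)) :
    A.Irreducible U ↔ IrrGp (toRho A) U := Iff.rfl

lemma semisimple_bridge (A : (cohSys W X).Action Γ) (U : Submodule W.K (W.H X)) :
    A.Semisimple U ↔ SemisimpleGp (toRho A) U := Iff.rfl

lemma kills_bridge {j : ℕ} {u : W.H X → W.H X} :
    (cohSys W X).Kills j u ↔ ∃ u' ∈ killers W X j, ∀ x, u' x = u x := by
  constructor
  · rintro ⟨hu, h0⟩
    obtain ⟨u', hu', e⟩ := corr_iff.1 hu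
    exact ⟨u', ⟨hu', fun y hy => (e y).trans (h0 y hy)⟩, e⟩
  · rintro ⟨u', ⟨hu', h0⟩, e⟩
    exact ⟨corr_iff.2 ⟨u', hu', e⟩, fun y hy => (e y).symm.trans (h0 y hy)⟩

lemma killSpan_bridge {j : ℕ} (U : Submodule W.K (W.H X)) :
    (cohSys W X).killSpan j U = opSpan (killers W X j) U := by
  rw [CohSys.killSpan, opSpan]
  apply congrArg (Submodule.span W.K)
  ext y
  constructor
  · rintro ⟨u, x, hu, hx, rfl⟩
    obtain ⟨u', hu', e⟩ := kills_bridge.1 hu
    exact ⟨u', hu', x, hx, e x⟩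
  · rintro ⟨u, hu, x, hx, rfl⟩
    exact ⟨fun x => u x, x, kills_bridge.2 ⟨u, hu, fun _ => rfl⟩, hx, rfl⟩

end Gp

/-- All conditions. -/
theorem main' (W : WeilCohomology.{u, v} ops) (X : 𝒱.Obj) (T : Set ℕ) :
    ((cohSys W X).Rational → ((cohSys W X).CycleProj T ↔ (cohSys W X).CorrProj T)) ∧
    List.TFAE [(cohSys W X).CorrProj T, (cohSys W X).Pairs T, (cohSys W X).Splitting T,
      ¬ (cohSys W X).Linked ((cohSys W X).part T) ((cohSys W X).part Tᶜ),
      (cohSys W X).CoprimeCycle T] ∧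
    ((cohSys W X).Large T → (cohSys W X).CorrProj T) ∧
    (cohSys W X).SemisimpleRule.{v, w} T ∧ (cohSys W X).IrreducibleRule.{v, w} T := by
  obtain ⟨m1, m2, m3, m4⟩ := main.{u, v, w} W X T
  refine ⟨fun h => ?_, ?_, fun h => ?_, fun Γ _ A h => ?_, fun Γ _ A h => ?_⟩
  · rw [cycleProj_bridge, corrProj_bridge]
    exact m1 (rational_bridge h)
  · rw [corrProj_bridge, pairs_bridge, splitting_bridge, linked_bridge, coprime_bridge]
    exact m2
  · rw [corrProj_bridge]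
    exact m3 (large_bridge h)
  · rw [corrProj_bridge]
    refine ((m4 Γ (toRho A) (isCorrAct_toRho A)).1 h).trans ?_
    constructor
    · intro h i hi j hj U hU hirr
      rw [killSpan_bridge]
      exact h i hi j hj U hU hirr
    · intro h i hi j hj U hU hirr
      rw [← killSpan_bridge]
      exact h i hi j hj U hU hirr
  · rw [corrProj_bridge]
    refine ((m4 Γ (toRho A) (isCorrAct_toRho A)).2 h).trans ?_
    constructor
    · intro h i hi j hj hne
      obtain ⟨u, hu, x, hx, h0⟩ := h i hi j hj hne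
      exact ⟨fun x => u x, kills_bridge.2 ⟨u, hu, fun _ => rfl⟩, x, hx, h0⟩
    · intro h i hi j hj hne
      obtain ⟨u, hu, x, hx, h0⟩ := h i hi j hj hne
      obtain ⟨u', hu', e⟩ := kills_bridge.1 hu
      exact ⟨u', hu', x, hx, fun h => h0 ((e x).symm.trans h)⟩

end Pool.Agent.U724C
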