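import Pool.Agent.U724C.One

/-!
# Algebras containing a diagonalisable operator in their centre
-/

set_option autoImplicit false

namespace Pool.Agent.U724C.Two

open Polynomial

variable {K : Type*} [Field K] {V : Type*} [AddCommGroup V] [Module K V] [Module.Finite K V]
  {R : Subalgebra K (Module.End K V)} {F : Module.End K V}

/-- the projectors onto the eigenspaces -/
lemma exists_proj (hF : ⨆ μ, F.eigenspace μ = ⊤) (hFR : F ∈ R) :
    ∃ (s : Finset K) (p : K → Module.End K V), (∀ μ, p μ ∈ R) ∧ (∀ μ ∈ s, ∀ x, F (p μ x) = μ • p μ x) ∧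
      (∀ μ ∈ s, ∀ x, F x = μ • x → p μ x = x) ∧ (∀ μ ∈ s, ∀ ν, ν ≠ μ → ∀ x, F x = ν • x → p μ x = 0) ∧
      (∀ x, x = ∑ μ ∈ s, p μ x) ∧ (∀ μ ∉ s, ∀ x, F x = μ • x → x = 0) := by
  classical
  have hfin : Set.Finite {μ | F.HasEigenvalue μ} := Module.End.finite_hasEigenvalue F
  let s : Finset K := hfin.toFinset
  have hs : ∀ μ, μ ∈ s ↔ F.HasEigenvalue μ := fun μ => by
    rw [Set.Finite.mem_toFinset]
    rfl
  have hns : ∀ μ ∉ s, ∀ x, F x = μ • x → x = 0 := by
    intro μ hμ x hx
    by_contra h0
    exact hμ ((hs μ).2 (Module.End.hasEigenvalue_of_hasEigenvector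
      ⟨Module.End.mem_eigenspace_iff.2 hx, h0⟩))
  let p : K → Module.End K V := fun μ => aeval F (Lagrange.basis s id μ)
  have hp : ∀ μ ν x, F x = ν • x → p μ x = (Lagrange.basis s id μ).eval ν • x := fun μ ν x hx =>
    Module.End.aeval_apply_of_mem_apply_eq_smul hx
  have h1 : ∀ μ ∈ s, ∀ x, F x = μ • x → p μ x = x := by
    intro μ hμ x hx
    have := Lagrange.eval_basis_self (s := s) (v := id) Function.injective_id.injOn hμ
    rw [hp μ μ x hx]
    change (eval (id μ) (Lagrange.basis s id μ)) • x = x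
    rw [this, one_smul]
  have h0 : ∀ μ ∈ s, ∀ ν, ν ≠ μ → ∀ x, F x = ν • x → p μ x = 0 := by
    intro μ hμ ν hν x hx
    by_cases hνs : ν ∈ s
    · have := Lagrange.eval_basis_of_ne (s := s) (v := id) (i := μ) (j := ν) (Ne.symm hν) hνs
      rw [hp μ ν x hx]
      change (eval (id ν) (Lagrange.basis s id μ)) • x = 0
      rw [this, zero_smul]
    · rw [hns ν hνs x hx, map_zero]
  have hind : ∀ (P : V → Prop), (∀ (μ : K) x, F x = μ • x → P x) → P 0 → (∀ x y, P x → P y → P (x + y)) →
      ∀ x, P x := by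
    intro P hP hP0 hPa x
    have hx : x ∈ ⨆ μ, F.eigenspace μ := by rw [hF]; trivial
    exact Submodule.iSup_induction _ (motive := P) hx
      (fun μ y hy => hP μ y (Module.End.mem_eigenspace_iff.1 hy)) hP0 hPa
  refine ⟨s, p, fun μ => ?_, fun μ hμ => ?_, h1, h0, ?_, hns⟩
  · exact (Algebra.adjoin_le (Set.singleton_subset_iff.2 hFR) :
      Algebra.adjoin K {F} ≤ R) (Polynomial.aeval_mem_adjoin_singleton K F)
  · refine hind _ (fun ν x hx => ?_) ?_ ?_
    · by_cases hν : ν = μ
      · subst hν
        rw [h1 _ hμ x hx, hx]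
      · rw [h0 μ hμ ν hν x hx, map_zero, smul_zero]
    · rw [map_zero, map_zero, smul_zero]
    · intro x y hx hy
      rw [map_add, map_add, hx, hy, smul_add]
  · refine hind _ (fun ν x hx => ?_) ?_ ?_
    · by_cases hν : ν ∈ s
      · rw [Finset.sum_eq_single ν, h1 ν hν x hx]
        · intro μ hμ hne
          exact h0 μ hμ ν (Ne.symm hne) x hx
        · exact fun h => absurd hν h
      · rw [hns ν hν x hx]
        exact (Finset.sum_eq_zero fun μ _ => map_zero _).symm
    · exact (Finset.sum_eq_zero fun μ _ => map_zero _).symm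
    · intro x y hx hy
      rw [Finset.sum_congr rfl fun μ _ => map_add (p μ) x y, Finset.sum_add_distrib, ← hx, ← hy]

/-- **Transitivity on eigenvectors.** -/
theorem tfae_eig [IsAlgClosed K] (hF : ⨆ μ, F.eigenspace μ = ⊤) (hFR : F ∈ R)
    (hcomm : ∀ u ∈ R, ∀ x, u (F x) = F (u x)) :
    List.TFAE [
      ∀ τ : Module.End K V, (∀ x, τ (F x) = F (τ x)) → τ ∈ R,
      ∀ (μ : K) (U : Submodule K V), (∀ x ∈ U, F x = μ • x) → St R U →
        U = ⊥ ∨ ∀ x, F x = μ • x → x ∈ U,
      ∀ (μ : K) (x y : V), F x = μ • x → F y = μ • y → x ≠ 0 → ∃ u ∈ R, u x = y] := by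
  classical
  obtain ⟨s, p, hpR, hpe, h1, h0, hsum, hns⟩ := exists_proj hF hFR
  tfae_have 1 → 3 := by
    intro hh μ x y hx hy hx0
    have hμ : μ ∈ s := by
      by_contra h
      exact hx0 (hns μ h x hx)
    obtain ⟨g, hg⟩ := LinearMap.exists_extend
      ((LinearMap.toSpanSingleton K V y) ∘ₗ
        (LinearEquiv.toSpanNonzeroSingleton K V x hx0).symm.toLinearMap)
    have hgx : g x = y := by
      have hx' : x ∈ Submodule.span K {x} := Submodule.mem_span_singleton_self x
      have e := LinearMap.congr_fun hg ⟨x, hx'⟩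
      have e1 : (LinearEquiv.toSpanNonzeroSingleton K V x hx0) 1 = ⟨x, hx'⟩ := by
        apply Subtype.ext
        simp
      rw [LinearMap.comp_apply, LinearMap.comp_apply, ← e1, LinearEquiv.coe_coe,
        LinearEquiv.symm_apply_apply, LinearMap.toSpanSingleton_apply, one_smul, e1] at e
      exact e
    refine ⟨p μ * g * p μ, hh _ fun z => ?_, ?_⟩
    · rw [Module.End.mul_apply, Module.End.mul_apply, Module.End.mul_apply, Module.End.mul_apply,
        hpe μ hμ]
      have e : p μ (F z) = μ • p μ z := by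
        rw [hcomm _ (hpR μ), hpe μ hμ]
      rw [e, map_smul, map_smul]
    · rw [Module.End.mul_apply, Module.End.mul_apply, h1 μ hμ x hx, hgx, h1 μ hμ y hy]
  tfae_have 3 → 2 := by
    intro hh μ U hU hst
    by_cases hU0 : U = ⊥
    · exact Or.inl hU0
    · right
      obtain ⟨x, hx, hx0⟩ := (Submodule.ne_bot_iff U).1 hU0
      intro y hy
      obtain ⟨u, hu, rfl⟩ := hh μ x y (hU x hx) hy hx0
      exact hst u hu x hx
  tfae_have 2 → 1 := by
    intro hh τ hτ
    -- the intersections with the eigenspaces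
    let E : K → Submodule K V → Submodule K V := fun μ U => U ⊓ F.eigenspace μ
    have hE : ∀ μ U, St R U → E μ U = ⊥ ∨ ∀ x, F x = μ • x → x ∈ U := by
      intro μ U hU
      rcases hh μ (E μ U) (fun x hx => Module.End.mem_eigenspace_iff.1 hx.2) (by
        intro u hu x hx
        refine ⟨hU u hu x hx.1, Module.End.mem_eigenspace_iff.2 ?_⟩
        rw [← hcomm u hu, Module.End.mem_eigenspace_iff.1 hx.2, map_smul]) with h | h
      · exact Or.inl h
      · exact Or.inr fun x hx => (h x hx).1
    have hlat : ∀ U, St R U → ∀ x ∈ U, τ x ∈ U := by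
      intro U hU x hx
      rw [hsum (τ x)]
      refine Submodule.sum_mem _ fun μ hμ => ?_
      have e : p μ (τ x) = τ (p μ x) := by
        have e1 : ∀ z, p μ (τ z) = τ (p μ z) := by
          intro z
          rw [hsum z]
          simp only [map_sum]
          refine Finset.sum_congr rfl fun ν hν => ?_
          have e3 : F (p ν z) = ν • p ν z := hpe ν hν z
          have e4 : F (τ (p ν z)) = ν • τ (p ν z) := by rw [← hτ, e3, map_smul]
          by_cases hνμ : ν = μ
          · subst hνμ
            rw [h1 _ hν _ e3, h1 _ hν _ e4]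
          · rw [h0 μ hμ ν hνμ _ e3, h0 μ hμ ν hνμ _ e4, map_zero]
        exact e1 x
      rw [e]
      have e3 : F (p μ x) = μ • p μ x := hpe μ hμ x
      have e4 : F (τ (p μ x)) = μ • τ (p μ x) := by rw [← hτ, e3, map_smul]
      rcases hE μ U hU with h | h
      · have : p μ x ∈ E μ U := ⟨hU _ (hpR μ) x hx, Module.End.mem_eigenspace_iff.2 e3⟩
        rw [h, Submodule.mem_bot] at this
        rw [this, map_zero]
        exact Submodule.zero_mem _
      · exact h _ e4
    have hss : SS R := by
      intro U hU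
      let t : Set K := {μ | E μ U = ⊥}
      refine ⟨⨆ μ ∈ t, F.eigenspace μ, ?_, ?_, ?_⟩
      · intro u hu
        have : (⨆ μ ∈ t, F.eigenspace μ) ≤ (⨆ μ ∈ t, F.eigenspace μ).comap u := by
          refine iSup₂_le fun μ hμ x hx => ?_
          refine (le_iSup₂_of_le (f := fun μ (_ : μ ∈ t) => F.eigenspace μ) μ hμ le_rfl) ?_
          rw [Module.End.mem_eigenspace_iff, ← hcomm u hu, Module.End.mem_eigenspace_iff.1 hx,
            map_smul]
        exact fun x hx => this hx
      · rw [eq_bot_iff]
        rintro x ⟨hx, hx'⟩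
        rw [Submodule.mem_bot, hsum x]
        refine Finset.sum_eq_zero fun μ hμ => ?_
        by_cases hμt : μ ∈ t
        · have : p μ x ∈ E μ U :=
            ⟨hU _ (hpR μ) x hx, Module.End.mem_eigenspace_iff.2 (hpe μ hμ x)⟩
          have hμt' : E μ U = ⊥ := hμt
          rw [hμt', Submodule.mem_bot] at this
          exact this
        · have hle : (⨆ ν ∈ t, F.eigenspace ν) ≤ LinearMap.ker (p μ) := by
            refine iSup₂_le fun ν hν y hy => ?_
            rw [LinearMap.mem_ker]
            refine h0 μ hμ ν ?_ y (Module.End.mem_eigenspace_iff.1 hy)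
            rintro rfl
            exact hμt hν
          exact LinearMap.mem_ker.1 (hle hx')
      · rw [eq_top_iff]
        intro x _
        rw [hsum x]
        refine Submodule.sum_mem _ fun μ hμ => ?_
        by_cases hμt : μ ∈ t
        · exact Submodule.mem_sup_right ((le_iSup₂_of_le
            (f := fun μ (_ : μ ∈ t) => F.eigenspace μ) μ hμt le_rfl)
              (Module.End.mem_eigenspace_iff.2 (hpe μ hμ x)))
        · rcases hE μ U hU with h | h
          · exact absurd h hμt
          · exact Submodule.mem_sup_left (h _ (hpe μ hμ x))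
    exact mem_of_lat hss τ hlat
  tfae_finish

end Pool.Agent.U724C.Two
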