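import Pool.Agent.U724C.FrobDefs
import Pool.Agent.U724C.Eig
import Pool.Agent.U724C.Bridge

/-!
# Translation of the criteria for the centraliser of an endomorphism
-/

set_option autoImplicit false

universe u v w

namespace Pool.Agent.U724C

open CategoryTheory Pool.Agent.H914 VarClass Obj WeilCohomology Pool.Agent.U724B Two

variable {k : Type u} [Field k] {𝒱 : VarClass k} {ops : CycleOps 𝒱}
  {W : WeilCohomology.{u, v} ops} {X : 𝒱.Obj}

/-- Pull-back along an endomorphism is an algebraic correspondence (its graph). -/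
lemma map_mem_alg (f : X ⟶ X) : (W.map f).toLinearMap ∈ corrAlg W X := by
  let γ : X ⟶ X.prod X := Obj.lift f (𝟙 X)
  have h0 : X.IsCyc 0 X.V.fundCycle := X.V.fundCycle_mem
  have h1 : (X.prod X).IsCyc X.dim (ops.push γ X.V.fundCycle) :=
    ops.push_mem γ h0 (by rw [Obj.dim_prod]; omega)
  have e : (W.map f).toLinearMap = W.corr (W.cl (X.prod X) (ops.push γ X.V.fundCycle)) := by
    ext a
    have e1 : W.cl (X.prod X) (ops.push γ X.V.fundCycle) = W.push γ 1 := by
      rw [W.isCompatible.cl_push, (W.isCycleMap X).cl_fund]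
    have e2 : W.corr (W.push γ 1) a =
        W.push (snd X X) (W.push γ 1 * W.map (fst X X) a) := rfl
    have e3 : W.map γ (W.map (fst X X) a) = W.map f a := by
      rw [← W.map_comp, show γ ≫ fst X X = f from Obj.lift_fst _ _]
    have e4 : W.push (snd X X) (W.push γ (W.map f a)) = W.map f a := by
      have h := W.push_comp γ (snd X X) (W.map f a)
      rw [show γ ≫ snd X X = 𝟙 X from Obj.lift_snd _ _] at h
      rw [W.push_id] at h
      exact h.symm
    rw [e1, e2, ← W.push_mul, e3, one_mul, e4]
    rfl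
  rw [e]
  exact corr_mem_alg h1

/-- the algebra of the correspondences commuting with `F` -/
noncomputable def commR (W : WeilCohomology.{u, v} ops) (X : 𝒱.Obj)
    (F : Module.End W.K (W.H X)) : Subalgebra W.K (Module.End W.K (W.H X)) :=
  corrAlg W X ⊓ Subalgebra.centralizer W.K {F}

variable {F : Module.End W.K (W.H X)}

lemma mem_commR {u : Module.End W.K (W.H X)} :
    u ∈ commR W X F ↔ u ∈ corrAlg W X ∧ ∀ x, u (F x) = F (u x) := by
  rw [commR, Algebra.mem_inf, Subalgebra.mem_centralizer_iff]
  constructor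
  · rintro ⟨h1, h2⟩
    exact ⟨h1, fun x => (LinearMap.congr_fun (h2 F rfl) x).symm⟩
  · rintro ⟨h1, h2⟩
    refine ⟨h1, ?_⟩
    rintro _ rfl
    ext x
    exact (h2 x).symm

lemma commCorr_iff {u : W.H X → W.H X} :
    (cohSys W X).CommCorr (fun x => F x) u ↔ ∃ u' ∈ commR W X F, ∀ x, u' x = u x := by
  constructor
  · rintro ⟨hu, h⟩
    obtain ⟨u', hu', e⟩ := corr_iff.1 hu
    refine ⟨u', mem_commR.2 ⟨hu', fun x => ?_⟩, e⟩
    rw [e, e]
    exact h x
  · rintro ⟨u', hu', e⟩
    obtain ⟨h1, h2⟩ := mem_commR.1 hu'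
    refine ⟨corr_iff.2 ⟨u', h1, e⟩, fun x => ?_⟩
    rw [← e, ← e]
    exact h2 x

lemma commCorr_of {u : Module.End W.K (W.H X)} (hu : u ∈ commR W X F) :
    (cohSys W X).CommCorr (fun x => F x) (fun x => u x) := commCorr_iff.2 ⟨u, hu, fun _ => rfl⟩

/-- **The criteria for the centraliser of the pull-back along an endomorphism.** -/
theorem frob_main (W : WeilCohomology.{u, v} ops) (X : 𝒱.Obj) (f : X ⟶ X) [IsAlgClosed W.K]
    (hF : (cohSys W X).Diagonalisable (W.map f)) :
    List.TFAE [(cohSys W X).CentraliserAlgebraic (W.map f),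
      (cohSys W X).EigenIrreducible (W.map f), (cohSys W X).EigenTransitive (W.map f)] := by
  let F : Module.End W.K (W.H X) := (W.map f).toLinearMap
  have hF' : ⨆ μ, F.eigenspace μ = ⊤ := by
    rw [eq_top_iff]
    intro x _
    have hle : Submodule.span W.K {y : W.H X | ∃ μ : W.K, F y = μ • y} ≤
        ⨆ μ, F.eigenspace μ := by
      rw [Submodule.span_le]
      rintro y ⟨μ, hy⟩
      exact (le_iSup F.eigenspace μ) (Module.End.mem_eigenspace_iff.2 hy)
    exact hle (hF x)
  have hFR : F ∈ commR W X F := mem_commR.2 ⟨map_mem_alg f, fun _ => rfl⟩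
  have T := tfae_eig (R := commR W X F) (F := F) hF' hFR (fun u hu => (mem_commR.1 hu).2)
  tfae_have 1 ↔ 2 := by
    refine Iff.trans ?_ ((T.out 0 1).trans ?_)
    · constructor
      · intro h τ hτ
        obtain ⟨u', hu', e⟩ := commCorr_iff (F := F).1
          (h (fun x => τ x) ⟨τ.map_add, τ.map_smul⟩ hτ)
        obtain rfl : u' = τ := LinearMap.ext e
        exact hu'
      · intro h τ hl hτ
        exact commCorr_of (F := F) (h { toFun := τ, map_add' := hl.1, map_smul' := hl.2 } hτ)
    · constructor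
      · intro h μ U hU hst
        exact h μ U hU fun u hu x hx => hst _ (commCorr_of hu) x hx
      · intro h μ U hU hst
        refine h μ U hU fun u hu x hx => ?_
        obtain ⟨u', hu', e⟩ := commCorr_iff (F := F).1 hu
        have := hst u' hu' x hx
        rwa [e] at this
  tfae_have 2 ↔ 3 := by
    refine Iff.trans ?_ ((T.out 1 2).trans ?_)
    · constructor
      · intro h μ U hU hst
        refine h μ U hU fun u hu x hx => ?_
        obtain ⟨u', hu', e⟩ := commCorr_iff (F := F).1 hu
        have := hst u' hu' x hx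
        rwa [e] at this
      · intro h μ U hU hst
        exact h μ U hU fun u hu x hx => hst _ (commCorr_of hu) x hx
    · constructor
      · intro h μ x y hx hy hx0
        obtain ⟨u, hu, e⟩ := h μ x y hx hy hx0
        exact ⟨_, commCorr_of hu, e⟩
      · intro h μ x y hx hy hx0
        obtain ⟨u, hu, e⟩ := h μ x y hx hy hx0
        obtain ⟨u', hu', e'⟩ := commCorr_iff (F := F).1 hu
        exact ⟨u', hu', (e' x).trans e⟩
  tfae_finish

end Pool.Agent.U724C
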