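import Pool.Agent.U724C.TateDefs

/-!
# Correspondences which commute with an endomorphism: definitions
-/

set_option autoImplicit false

universe u v

open CategoryTheory

namespace Pool.Agent.U724C

open Pool.Agent.H914 VarClass Obj WeilCohomology

section

variable {k : Type u} [Field k] {𝒱 : VarClass k} {ops : CycleOps 𝒱}

/-- The pull-back along the endomorphism `f` on the cohomology of `X`. -/
noncomputable def pullSys (W : WeilCohomology.{u, v} ops) (X : 𝒱.Obj) (f : X ⟶ X) :
    (cohSys W X).V → (cohSys W X).V := W.map f

/-- The degree of `f` is not zero: there is a constant `c`, not zero, with `tr (f^* a) = c tr a`. -/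
def NonzeroDegree (W : WeilCohomology.{u, v} ops) (X : 𝒱.Obj) (f : X ⟶ X) : Prop :=
  ∃ c : W.K, c ≠ 0 ∧ ∀ a, W.tr X (W.map f a) = c * W.tr X a

end

namespace CohSys

variable {K : Type v} [Field K] (S : CohSys K) (F : S.V → S.V)

/-- A linear combination `u` of cycles which commutes with `F`. (In the use made here `F` is the
Frobenius, and these are the linear combinations of the cycles defined over the finite field.) -/
def CommCorr (u : S.V → S.V) : Prop := S.Corr u ∧ Comm u F

/-- Every vector is a linear combination of eigenvectors of `F`. -/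
def Diagonalisable : Prop := ∀ x : S.V, x ∈ Submodule.span K {y | ∃ μ : K, F y = μ • y}

/-- Every linear map which commutes with `F` is a linear combination of cycles. -/
def CentraliserAlgebraic : Prop := ∀ τ, Lin τ → Comm τ F → S.CommCorr F τ

/-- Both: every linear map which commutes with `F` is a linear combination of cycles, and `F` is
diagonalisable. -/
def StrongTate : Prop := S.CentraliserAlgebraic F ∧ S.Diagonalisable F

/-- The eigenspaces of `F` are irreducible or zero under the linear combinations of cycles which
commute with `F`. -/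
def EigenIrreducible : Prop :=
  ∀ (μ : K) (U : Submodule K S.V), (∀ x ∈ U, F x = μ • x) →
    (∀ u, S.CommCorr F u → ∀ x ∈ U, u x ∈ U) → U = ⊥ ∨ ∀ x, F x = μ • x → x ∈ U

/-- For all `x` and `y` in the same eigenspace of `F`, `x` not zero, there is a linear combination
`u` of cycles, which commutes with `F`, with `u x = y`. -/
def EigenTransitive : Prop :=
  ∀ (μ : K) (x y : S.V), F x = μ • x → F y = μ • y → x ≠ 0 → ∃ u, S.CommCorr F u ∧ u x = y

/-- No eigenvalue of `F` occurs in two different degrees. -/
def DistinctDegrees : Prop :=
  ∀ (i j : ℕ) (μ : K) (x y : S.V), x ∈ S.gr i → y ∈ S.gr j → i ≠ j → F x = μ • x → F y = μ • y →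
    x = 0 ∨ y = 0

/-- For all `x` and `y` of the same degree at most `n` in the same eigenspace of `F`, `x` not zero,
there is a linear combination `u` of cycles, which commutes with `F`, with `u x = y`. -/
def EigenTransitiveUpTo (n : ℕ) : Prop :=
  ∀ i ≤ n, ∀ (μ : K), ∀ x ∈ S.gr i, ∀ y ∈ S.gr i, F x = μ • x → F y = μ • y → x ≠ 0 →
    ∃ u, S.CommCorr F u ∧ u x = y

/-- `y` is a generalised eigenvector of `F` (or zero) for the eigenvalue `μ`: some power of `F - μ`
maps it to zero. -/
def GenEigen (μ : K) (y : S.V) : Prop := ∃ m : ℕ, (fun z => F z - μ • z)^[m] y = 0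

/-- For every eigenvector `x` of `F`, not zero, and every generalised eigenvector `y` with the same
eigenvalue there is a linear combination `u` of cycles, which commutes with `F`, with `u x = y`. -/
def GenTransitive : Prop :=
  ∀ (μ : K) (x y : S.V), F x = μ • x → x ≠ 0 → S.GenEigen F μ y → ∃ u, S.CommCorr F u ∧ u x = y

/-- The same for `x` and `y` of the same degree at most `n`. -/
def GenTransitiveUpTo (n : ℕ) : Prop :=
  ∀ i ≤ n, ∀ (μ : K), ∀ x ∈ S.gr i, ∀ y ∈ S.gr i, F x = μ • x → x ≠ 0 → S.GenEigen F μ y →
    ∃ u, S.CommCorr F u ∧ u x = y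

end CohSys

end Pool.Agent.U724C
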