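import Pool.Agent.U724C.FrobBridge

/-!
# The lower half of the cohomology is enough
-/

set_option autoImplicit false

universe u v w

namespace Pool.Agent.U724C

open CategoryTheory Pool.Agent.H914 VarClass Obj WeilCohomology Pool.Agent.U724B Two

variable {k : Type u} [Field k] {𝒱 : VarClass k} {ops : CycleOps 𝒱}
  {W : WeilCohomology.{u, v} ops} {X : 𝒱.Obj} {F : Module.End W.K (W.H X)} {c : W.K}

lemma inj_of_mul (hc : c ≠ 0) (hmul : ∀ a b, W.tr X (F a * F b) = c * W.tr X (a * b)) :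
    Function.Injective F := by
  rw [injective_iff_map_eq_zero]
  intro a ha
  apply W.nondeg
  intro b
  have h := hmul a b
  rw [ha, zero_mul, map_zero] at h
  exact (mul_eq_zero.1 h.symm).resolve_left hc

lemma surj_of_mul (hc : c ≠ 0) (hmul : ∀ a b, W.tr X (F a * F b) = c * W.tr X (a * b)) :
    Function.Surjective F := by
  have := W.finite X
  exact LinearMap.surjective_of_injective (inj_of_mul hc hmul)

lemma adj_mem (hc : c ≠ 0) (hmul : ∀ a b, W.tr X (F a * F b) = c * W.tr X (a * b))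
    {u : Module.End W.K (W.H X)} (hu : u ∈ commR W X F) :
    ∃ ψ ∈ commR W X F, ∀ a b, W.tr X (u a * b) = W.tr X (a * ψ b) := by
  obtain ⟨hu1, hu2⟩ := mem_commR.1 hu
  obtain ⟨ψ, hψ, h⟩ := KOp.exists_adjoint (mem_corrAlg.1 hu1)
  refine ⟨ψ, mem_commR.2 ⟨mem_corrAlg.2 (KOp.cast hψ (by omega)), fun b => ?_⟩, h⟩
  rw [← sub_eq_zero]
  apply nondeg_right
  intro a'
  obtain ⟨a, rfl⟩ := surj_of_mul hc hmul a'
  rw [mul_sub, map_sub, ← h, hu2, hmul, hmul, h, sub_self]

lemma pair_zero (hmul : ∀ a b, W.tr X (F a * F b) = c * W.tr X (a * b)) {μ ν : W.K} {x y : W.H X}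
    (hx : F x = ν • x) (hy : F y = μ • y) (hne : ν * μ ≠ c) : W.tr X (x * y) = 0 := by
  have h := hmul x y
  rw [hx, hy, smul_mul_smul_comm, map_smul, smul_eq_mul, ← sub_eq_zero, ← sub_mul] at h
  exact (mul_eq_zero.1 h).resolve_left (sub_ne_zero.2 hne)

/-- every functional which does not vanish on an eigenvector is represented by an eigenvector -/
lemma exists_dual (hF : (⨆ μ, F.eigenspace μ) = ⊤) (hFR : F ∈ commR W X F) (hc : c ≠ 0)
    (hmul : ∀ a b, W.tr X (F a * F b) = c * W.tr X (a * b)) {μ : W.K} {y0 : W.H X}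
    (hy0 : F y0 = μ • y0) (U : Submodule W.K (W.H X)) (hU : ∀ y ∈ U, F y = μ • y) (hyU : y0 ∉ U) :
    ∃ (ν : W.K) (x : W.H X), ν * μ = c ∧ F x = ν • x ∧ (∀ y ∈ U, W.tr X (x * y) = 0) ∧
      W.tr X (x * y0) ≠ 0 := by
  have := W.finite X
  obtain ⟨ℓ, hℓ0, hℓU⟩ := Submodule.exists_dual_map_eq_bot_of_notMem hyU inferInstance
  have hℓU' : ∀ y ∈ U, ℓ y = 0 := by
    intro y hy
    have : ℓ y ∈ U.map ℓ := Submodule.mem_map_of_mem hy
    rw [hℓU] at this
    exact this
  -- the functional is represented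
  let B : W.H X →ₗ[W.K] Module.Dual W.K (W.H X) :=
    { toFun := fun x => (W.tr X) ∘ₗ (LinearMap.mulLeft W.K x)
      map_add' := fun x y => by
        ext z
        simp [add_mul]
      map_smul' := fun a x => by
        ext z
        simp }
  have hB : ∀ x y, B x y = W.tr X (x * y) := fun x y => rfl
  have hBi : Function.Injective B := by
    rw [injective_iff_map_eq_zero]
    intro x hx
    apply W.nondeg
    intro b
    rw [← hB, hx]
    rfl
  have hBs : Function.Surjective B :=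
    (LinearMap.injective_iff_surjective_of_finrank_eq_finrank
      (Subspace.dual_finrank_eq (K := W.K) (V := W.H X)).symm).1 hBi
  obtain ⟨x0, hx0⟩ := hBs ℓ
  obtain ⟨s, p, hpR, hpe, h1, h0, hsum, hns⟩ := Two.exists_proj hF hFR
  have hy00 : y0 ≠ 0 := by
    rintro rfl
    exact hyU U.zero_mem
  have hμ : μ ≠ 0 := by
    rintro rfl
    rw [zero_smul] at hy0
    exact hy00 (inj_of_mul hc hmul (by rw [hy0, map_zero]))
  -- projecting to the dual eigenspace
  have key : ∀ y, F y = μ • y → ∀ ν ∈ s, ν ≠ c / μ → W.tr X (p ν x0 * y) = 0 := by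
    intro y hy ν hν hne
    refine pair_zero hmul (hpe ν hν x0) hy ?_
    intro h
    exact hne (by rw [← h, mul_div_cancel_right₀ _ hμ])
  have hexp : ∀ y, W.tr X (x0 * y) = ∑ ν ∈ s, W.tr X (p ν x0 * y) := by
    intro y
    conv_lhs => rw [hsum x0]
    rw [Finset.sum_mul, map_sum]
  have hmem : c / μ ∈ s := by
    by_contra hcon
    have h2 := hexp y0
    rw [Finset.sum_eq_zero fun ν hν => key y0 hy0 ν hν (by rintro rfl; exact hcon hν),
      ← hB, hx0] at h2
    exact hℓ0 h2
  have hone : ∀ y, F y = μ • y → W.tr X (p (c / μ) x0 * y) = ℓ y := by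
    intro y hy
    rw [← hx0, hB, hexp y, Finset.sum_eq_single (c / μ)]
    · intro ν hν hne
      exact key y hy ν hν hne
    · exact fun h => absurd hmem h
  refine ⟨c / μ, p (c / μ) x0, div_mul_cancel₀ _ hμ, hpe _ hmem _, fun y hy => ?_, ?_⟩
  · rw [hone y (hU y hy), hℓU' y hy]
  · rw [hone y0 hy0]
    exact hℓ0

/-- eigenvectors with the same eigenvalue have the same degree -/
lemma same_degree (hgr : ∀ i, ∀ x ∈ W.gr X i, F x ∈ W.gr X i)
    (hd : (cohSys W X).DistinctDegrees (fun x => F x)) {μ : W.K}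
    {x y : W.H X} (hx : F x = μ • x) (hy : F y = μ • y) (hx0 : x ≠ 0) :
    ∃ i, x ∈ W.gr X i ∧ y ∈ W.gr X i := by
  have hN : ∀ i, 2 * X.dim + 1 ≤ i → W.gr X i = ⊥ := fun i hi => W.gr_eq_bot X i (by omega)
  have hcomm : ∀ j z, proj (W.isInternal X) j (F z) = F (proj (W.isInternal X) j z) := by
    intro j z
    have h4 : proj (W.isInternal X) j * F = F * proj (W.isInternal X) j := by
      apply gr_ext (W.isInternal X)
      intro l y hy
      rw [Module.End.mul_apply, Module.End.mul_apply]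
      by_cases hl : l = j
      · subst hl
        rw [proj_same _ hy, proj_same _ (hgr _ y hy)]
      · rw [proj_ne _ hy hl, proj_ne _ (hgr _ y hy) hl, map_zero]
    exact LinearMap.congr_fun h4 z
  have hsum : ∀ z : W.H X, z = ∑ j ∈ Finset.range (2 * X.dim + 1), proj (W.isInternal X) j z := by
    intro z
    have := LinearMap.congr_fun (sum_proj (W.isInternal X) hN) z
    rw [LinearMap.sum_apply] at this
    exact this.symm
  obtain ⟨i, hi⟩ : ∃ i, proj (W.isInternal X) i x ≠ 0 := by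
    by_contra h
    push Not at h
    apply hx0
    rw [hsum x]
    exact Finset.sum_eq_zero fun j _ => h j
  have hzero : ∀ z, F z = μ • z → ∀ j, j ≠ i → proj (W.isInternal X) j z = 0 := by
    intro z hz j hj
    refine (hd i j μ (proj (W.isInternal X) i x) (proj (W.isInternal X) j z) (proj_mem _ _ _)
      (proj_mem _ _ _) (Ne.symm hj) ?_ ?_).resolve_left hi
    · change F (proj (W.isInternal X) i x) = _
      rw [← hcomm, hx, map_smul]
    · change F (proj (W.isInternal X) j z) = _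
      rw [← hcomm, hz, map_smul]
  have hmem : ∀ z, F z = μ • z → z ∈ W.gr X i := by
    intro z hz
    rw [hsum z]
    refine Submodule.sum_mem _ fun j _ => ?_
    by_cases hj : j = i
    · subst hj
      exact proj_mem _ _ _
    · rw [hzero z hz j hj]
      exact Submodule.zero_mem _
  exact ⟨i, hmem x hx, hmem y hy⟩

/-- **The lower half of the cohomology is enough.** -/
theorem irreducible_of_lower (hF : (⨆ μ, F.eigenspace μ) = ⊤) (hFR : F ∈ commR W X F) (hc : c ≠ 0)
    (hmul : ∀ a b, W.tr X (F a * F b) = c * W.tr X (a * b))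
    (hd : (cohSys W X).DistinctDegrees (fun x => F x))
    (hlow : (cohSys W X).EigenTransitiveUpTo (fun x => F x) X.dim) :
    (cohSys W X).EigenIrreducible (fun x => F x) := by
  have hgr : ∀ i, ∀ x ∈ W.gr X i, F x ∈ W.gr X i := fun i x hx => alg_mem (mem_commR.1 hFR).1 hx
  have htr : ∀ i, ∀ x ∈ W.gr X i, ∀ u ∈ commR W X F, u x ∈ W.gr X i :=
    fun i x hx u hu => alg_mem (mem_commR.1 hu).1 hx
  intro μ U hU hst
  by_cases hU0 : U = ⊥
  · exact Or.inl hU0
  right
  by_contra hcon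
  push Not at hcon
  obtain ⟨y0, hy0, hy0U⟩ := hcon
  obtain ⟨y1, hy1, hy10⟩ := (Submodule.ne_bot_iff U).1 hU0
  have hy1' : F y1 = μ • y1 := hU y1 hy1
  obtain ⟨i, hi1, hi0⟩ := same_degree hgr hd hy1' hy0 hy10
  have hst' : ∀ u ∈ commR W X F, ∀ x ∈ U, u x ∈ U := fun u hu x hx => hst _ (commCorr_of hu) x hx
  rcases Nat.lt_or_ge X.dim i with hi | hi
  · -- the dual eigenspace is in low degree
    obtain ⟨ν, x, hν, hx, hxU, hx0⟩ := exists_dual hF hFR hc hmul hy0 U hU hy0U
    obtain ⟨ν', x', hν', hx', -, hx'1⟩ := exists_dual hF hFR hc hmul hy1' ⊥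
      (fun y hy => by rw [(Submodule.mem_bot _).1 hy, map_zero, smul_zero])
      (fun h => hy10 ((Submodule.mem_bot _).1 h))
    have hμ : μ ≠ 0 := by
      rintro rfl
      rw [mul_zero] at hν
      exact hc hν.symm
    obtain rfl : ν' = ν := mul_right_cancel₀ hμ (hν'.trans hν.symm)
    have hxne : x ≠ 0 := by
      rintro rfl
      exact hx0 (by rw [zero_mul, map_zero])
    obtain ⟨j, hj, hj'⟩ := same_degree hgr hd hx hx' hxne
    have hij : j + i = 2 * X.dim := by
      by_contra h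
      exact hx0 (W.tr_eq_zero (W.mul_mem hj hi0) h)
    obtain ⟨u, hu, e⟩ := hlow j (by omega) ν' x hj x' hj' hx hx' hxne
    obtain ⟨u', hu', e'⟩ := commCorr_iff.1 hu
    obtain ⟨ψ, hψ, hadj⟩ := adj_mem hc hmul hu'
    apply hx'1
    rw [← e, ← e' x, hadj]
    exact hxU _ (hst' ψ hψ y1 hy1)
  · -- low degree
    obtain ⟨u, hu, e⟩ := hlow i hi μ y1 hi1 y0 hi0 hy1' hy0 hy10
    exact hy0U (e ▸ hst u hu y1 hy1)

/-- **All criteria.** -/
theorem frob_all (W : WeilCohomology.{u, v} ops) (X : 𝒱.Obj) (f : X ⟶ X) [IsAlgClosed W.K]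
    (hF : (cohSys W X).Diagonalisable (W.map f)) :
    List.TFAE [(cohSys W X).CentraliserAlgebraic (W.map f),
      (cohSys W X).EigenIrreducible (W.map f), (cohSys W X).EigenTransitive (W.map f)] ∧
    ((cohSys W X).DistinctDegrees (W.map f) →
      (∃ c : W.K, c ≠ 0 ∧ ∀ a, W.tr X (W.map f a) = c * W.tr X a) →
      ((cohSys W X).CentraliserAlgebraic (W.map f) ↔
        (cohSys W X).EigenTransitiveUpTo (W.map f) X.dim)) := by
  have T := frob_main W X f hF
  refine ⟨T, ?_⟩
  rintro hd ⟨c, hc, htr⟩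
  let F : Module.End W.K (W.H X) := (W.map f).toLinearMap
  have hF' : (⨆ μ, F.eigenspace μ) = ⊤ := by
    rw [eq_top_iff]
    intro x _
    have hle : Submodule.span W.K {y : W.H X | ∃ μ : W.K, F y = μ • y} ≤
        ⨆ μ, F.eigenspace μ := by
      rw [Submodule.span_le]
      rintro y ⟨μ, hy⟩
      exact (le_iSup F.eigenspace μ) (Module.End.mem_eigenspace_iff.2 hy)
    exact hle (hF x)
  have hFR : F ∈ commR W X F := mem_commR.2 ⟨map_mem_alg f, fun _ => rfl⟩
  have hmul : ∀ a b, W.tr X (F a * F b) = c * W.tr X (a * b) := by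
    intro a b
    rw [← htr, map_mul (W.map f)]
    rfl
  constructor
  · intro h i _ μ x _ y _ hx' hy' hx0
    have T02 := T.out 0 2
    exact T02.1 h μ x y hx' hy' hx0
  · intro h
    exact (T.out 1 0).1 (irreducible_of_lower (F := F) hF' hFR hc hmul hd h)

end Pool.Agent.U724C
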