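import Pool.Agent.U724C.FrobDual

/-!
# Generalised eigenvectors
-/

set_option autoImplicit false

universe u v w

namespace Pool.Agent.U724C

open CategoryTheory Pool.Agent.H914 VarClass Obj WeilCohomology Pool.Agent.U724B Two

variable {k : Type u} [Field k] {𝒱 : VarClass k} {ops : CycleOps 𝒱}
  {W : WeilCohomology.{u, v} ops} {X : 𝒱.Obj} {F : Module.End W.K (W.H X)} {c : W.K}

lemma genEigen_iff {μ : W.K} {y : W.H X} :
    (cohSys W X).GenEigen (fun x => F x) μ y ↔ ∃ m : ℕ, ((F - μ • 1) ^ m) y = 0 := by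
  have e : ∀ m : ℕ, (fun z : W.H X => F z - μ • z)^[m] y = ((F - μ • 1) ^ m) y := by
    intro m
    rw [Module.End.pow_apply]
    rfl
  unfold CohSys.GenEigen
  exact exists_congr fun m => by rw [← e m]

/-- some iterate is an eigenvector -/
lemma exists_eigen {μ : W.K} {y : W.H X} (hy : ∃ m : ℕ, ((F - μ • 1) ^ m) y = 0) (hy0 : y ≠ 0) :
    ∃ m : ℕ, ((F - μ • 1) ^ m) y ≠ 0 ∧ F (((F - μ • 1) ^ m) y) = μ • ((F - μ • 1) ^ m) y := by
  classical
  have h1 := Nat.find_spec hy
  have h2 : Nat.find hy ≠ 0 := by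
    intro h
    rw [h, pow_zero] at h1
    exact hy0 h1
  obtain ⟨m, hm⟩ := Nat.exists_eq_succ_of_ne_zero h2
  refine ⟨m, Nat.find_min hy (by omega), ?_⟩
  rw [hm, Nat.succ_eq_add_one, pow_succ', Module.End.mul_apply, LinearMap.sub_apply,
    LinearMap.smul_apply, Module.End.one_apply, sub_eq_zero] at h1
  exact h1

lemma pow_gr (hgr : ∀ i, ∀ x ∈ W.gr X i, F x ∈ W.gr X i) {i : ℕ} {μ : W.K} (m : ℕ) :
    ∀ y ∈ W.gr X i, ((F - μ • 1) ^ m) y ∈ W.gr X i := by
  induction m with
  | zero => exact fun y hy => by rwa [pow_zero]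
  | succ m ih =>
    intro y hy
    rw [pow_succ', Module.End.mul_apply]
    exact Submodule.sub_mem _ (hgr _ _ (ih y hy)) (Submodule.smul_mem _ _ (ih y hy))

/-- image of an eigenvector under a correspondence commuting with `F` -/
lemma eigen_image {μ : W.K} {x y : W.H X} (hx : F x = μ • x)
    (h : ∃ u, (cohSys W X).CommCorr (fun x => F x) u ∧ u x = y) : F y = μ • y := by
  obtain ⟨u, hu, rfl⟩ := h
  obtain ⟨u', hu', e⟩ := commCorr_iff.1 hu
  have h1 := (mem_commR.1 hu').2 x
  rw [hx, map_smul, e] at h1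
  exact h1.symm

lemma gen_dual (hc : c ≠ 0) (hmul : ∀ a b, W.tr X (F a * F b) = c * W.tr X (a * b))
    {μ ν : W.K} {x y : W.H X} (hx : F x = ν • x) (hy : ∃ m : ℕ, ((F - μ • 1) ^ m) y = 0) :
    W.tr X (x * (F y - μ • y)) = 0 := by
  by_cases hx0 : x = 0
  · rw [hx0, zero_mul, map_zero]
  have hν : ν ≠ 0 := by
    rintro rfl
    rw [zero_smul] at hx
    exact hx0 (inj_of_mul hc hmul (by rw [hx, map_zero]))
  have h1 : ∀ z, W.tr X (x * (F z - μ • z)) = (c / ν - μ) * W.tr X (x * z) := by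
    intro z
    have h2 := hmul x z
    rw [hx, smul_mul_assoc, map_smul, smul_eq_mul] at h2
    rw [mul_sub, map_sub, mul_smul_comm, map_smul, smul_eq_mul, sub_mul]
    congr 1
    rw [div_mul_eq_mul_div, eq_div_iff hν, ← h2, mul_comm]
  have h3 : ∀ m : ℕ, W.tr X (x * ((F - μ • 1) ^ m) y) = (c / ν - μ) ^ m * W.tr X (x * y) := by
    intro m
    induction m with
    | zero => rw [pow_zero, pow_zero, one_mul]; rfl
    | succ m ih =>
      have h4 := h1 (((F - μ • 1) ^ m) y)
      rw [ih] at h4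
      rw [pow_succ' (F - μ • 1), Module.End.mul_apply, pow_succ', mul_assoc, ← h4]
      rfl
  obtain ⟨m, hm⟩ := hy
  have h5 := h3 m
  rw [hm, mul_zero, map_zero] at h5
  rw [h1]
  rcases mul_eq_zero.1 h5.symm with h | h
  · rw [eq_zero_of_pow_eq_zero h, zero_mul]
  · rw [h, mul_zero]

lemma diag_of_gen [IsAlgClosed W.K]
    (h : ∀ (μ : W.K) (y : W.H X), (∃ m : ℕ, ((F - μ • 1) ^ m) y = 0) → F y = μ • y) :
    (cohSys W X).Diagonalisable (fun x => F x) := by
  have := W.finite X
  intro x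
  have hx : x ∈ ⨆ μ, F.maxGenEigenspace μ := by
    rw [Module.End.iSup_maxGenEigenspace_eq_top]
    trivial
  have hle : (⨆ μ, F.maxGenEigenspace μ) ≤
      Submodule.span W.K {y : W.H X | ∃ μ : W.K, F y = μ • y} := by
    refine iSup_le fun μ y hy => Submodule.subset_span ⟨μ, h μ y ?_⟩
    obtain ⟨m, hm⟩ := Module.End.mem_maxGenEigenspace _ _ _ |>.1 hy
    exact ⟨m, hm⟩
  exact hle hx

lemma gen_of_gen [IsAlgClosed W.K] (h : (cohSys W X).GenTransitive (fun x => F x)) (μ : W.K)
    (y : W.H X) (hy : ∃ m : ℕ, ((F - μ • 1) ^ m) y = 0) : F y = μ • y := by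
  by_cases hy0 : y = 0
  · rw [hy0, map_zero, smul_zero]
  obtain ⟨m, h1, h2⟩ := exists_eigen hy hy0
  exact eigen_image h2 (h μ _ y h2 h1 (genEigen_iff.2 hy))

/-- the lower half -/
lemma gen_of_lower [IsAlgClosed W.K] (hgr : ∀ i, ∀ x ∈ W.gr X i, F x ∈ W.gr X i) (hc : c ≠ 0)
    (hmul : ∀ a b, W.tr X (F a * F b) = c * W.tr X (a * b))
    (h : (cohSys W X).GenTransitiveUpTo (fun x => F x) X.dim) (μ : W.K)
    (y : W.H X) (hy : ∃ m : ℕ, ((F - μ • 1) ^ m) y = 0) : F y = μ • y := by
  have := W.finite X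
  have hN : ∀ i, 2 * X.dim + 1 ≤ i → W.gr X i = ⊥ := fun i hi => W.gr_eq_bot X i (by omega)
  have hlow : ∀ i ≤ X.dim, ∀ (μ : W.K), ∀ y ∈ W.gr X i, (∃ m : ℕ, ((F - μ • 1) ^ m) y = 0) →
      F y = μ • y := by
    intro i hi μ y hyi hy
    by_cases hy0 : y = 0
    · rw [hy0, map_zero, smul_zero]
    obtain ⟨m, h1, h2⟩ := exists_eigen hy hy0
    exact eigen_image h2 (h i hi μ _ (pow_gr hgr m y hyi) y hyi h2 h1 (genEigen_iff.2 hy))
  -- the components of a generalised eigenvector
  have hcomm : ∀ j z, proj (W.isInternal X) j (F z) = F (proj (W.isInternal X) j z) := by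
    intro j z
    have h4 : proj (W.isInternal X) j * F = F * proj (W.isInternal X) j := by
      apply gr_ext (W.isInternal X)
      intro l y hy
      rw [Module.End.mul_apply, Module.End.mul_apply]
      by_cases hl : l = j
      · subst hl
        rw [proj_same _ hy, proj_same _ (hgr _ y hy)]
      · rw [proj_ne _ hy hl, proj_ne _ (hgr _ y hy) hl, map_zero]
    exact LinearMap.congr_fun h4 z
  have hcomp : ∀ (μ : W.K) (y : W.H X) (j : ℕ), (∃ m : ℕ, ((F - μ • 1) ^ m) y = 0) →
      ∃ m : ℕ, ((F - μ • 1) ^ m) (proj (W.isInternal X) j y) = 0 := by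
    rintro μ y j ⟨m, hm⟩
    refine ⟨m, ?_⟩
    have h5 : ∀ (m : ℕ) (z : W.H X), ((F - μ • 1) ^ m) (proj (W.isInternal X) j z) =
        proj (W.isInternal X) j (((F - μ • 1) ^ m) z) := by
      intro m
      induction m with
      | zero => intro z; rw [pow_zero]; rfl
      | succ m ih =>
        intro z
        rw [pow_succ', Module.End.mul_apply, Module.End.mul_apply, ih]
        rw [LinearMap.sub_apply, LinearMap.sub_apply, map_sub, hcomm, LinearMap.smul_apply,
          LinearMap.smul_apply, map_smul]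
        rfl
    rw [h5, hm, map_zero]
  have hspan : ∀ i ≤ X.dim, ∀ x ∈ W.gr X i,
      x ∈ Submodule.span W.K {y : W.H X | ∃ μ : W.K, F y = μ • y} := by
    intro i hi x hx
    have hx' : x ∈ ⨆ μ, F.maxGenEigenspace μ := by
      rw [Module.End.iSup_maxGenEigenspace_eq_top]
      trivial
    have hle : (⨆ μ, F.maxGenEigenspace μ) ≤
        (Submodule.span W.K {y : W.H X | ∃ μ : W.K, F y = μ • y}).comap
          (proj (W.isInternal X) i) := by
      refine iSup_le fun μ y hy => Submodule.subset_span ⟨μ, ?_⟩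
      obtain ⟨m, hm⟩ := Module.End.mem_maxGenEigenspace _ _ _ |>.1 hy
      exact hlow i hi μ _ (proj_mem _ _ _) (hcomp μ y i ⟨m, hm⟩)
    have h6 := hle hx'
    rw [Submodule.mem_comap, proj_same _ hx] at h6
    exact h6
  have hhigh : ∀ j, ∀ y ∈ W.gr X j, (∃ m : ℕ, ((F - μ • 1) ^ m) y = 0) → F y = μ • y := by
    intro j y hyj hy
    rcases Nat.lt_or_ge X.dim j with hj | hj
    · have hz : ∀ b ∈ Submodule.span W.K {y : W.H X | ∃ μ : W.K, F y = μ • y},
          W.tr X (b * (F y - μ • y)) = 0 := by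
        intro b hb
        induction hb using Submodule.span_induction with
        | mem b hb =>
          obtain ⟨ν, hν⟩ := hb
          exact gen_dual hc hmul hν hy
        | zero => rw [zero_mul, map_zero]
        | add a b _ _ ha hb => rw [add_mul, map_add, ha, hb, add_zero]
        | smul a b _ hb => rw [smul_mul_assoc, map_smul, hb, smul_zero]
      rw [← sub_eq_zero]
      apply nondeg_right
      intro b
      refine gr_induction (W.isInternal X) (p := fun b => W.tr X (b * (F y - μ • y)) = 0) ?_ ?_ b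
      · intro l b hb
        by_cases hlj : l + j = 2 * X.dim
        · exact hz b (hspan l (by omega) b hb)
        · exact W.tr_eq_zero (W.mul_mem hb
            (Submodule.sub_mem _ (hgr _ _ hyj) (Submodule.smul_mem _ _ hyj))) hlj
      · intro a b ha hb
        rw [add_mul, map_add, ha, hb, add_zero]
    · exact hlow j hj μ y hyj hy
  have hsum : ∀ z : W.H X, z = ∑ j ∈ Finset.range (2 * X.dim + 1), proj (W.isInternal X) j z := by
    intro z
    have := LinearMap.congr_fun (sum_proj (W.isInternal X) hN) z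
    rw [LinearMap.sum_apply] at this
    exact this.symm
  rw [hsum y, map_sum, Finset.smul_sum]
  exact Finset.sum_congr rfl fun j _ => hhigh j _ (proj_mem _ _ _) (hcomp μ y j hy)

lemma gen_eigen_of_diag (hF : ∀ x : W.H X, x ∈ Submodule.span W.K
    {y : W.H X | ∃ μ : W.K, F y = μ • y}) {μ : W.K} {y : W.H X}
    (hy : ∃ m : ℕ, ((F - μ • 1) ^ m) y = 0) : F y = μ • y := by
  have hF' : (⨆ μ, F.eigenspace μ) = ⊤ := by
    rw [eq_top_iff]
    intro x _
    have hle : Submodule.span W.K {y : W.H X | ∃ μ : W.K, F y = μ • y} ≤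
        ⨆ μ, F.eigenspace μ := by
      rw [Submodule.span_le]
      rintro y ⟨μ, hy⟩
      exact (le_iSup F.eigenspace μ) (Module.End.mem_eigenspace_iff.2 hy)
    exact hle (hF x)
  have := W.finite X
  obtain ⟨s, p, -, hpe, h1, h0, hsum, hns⟩ := Two.exists_proj (R := ⊤) hF' Algebra.mem_top
  obtain ⟨m, hm⟩ := hy
  have h2 : ∀ ν ∈ s, ((F - μ • 1) ^ m) (p ν y) = (ν - μ) ^ m • p ν y := by
    intro ν hν
    have h3 : ∀ m : ℕ, ((F - μ • 1) ^ m) (p ν y) = (ν - μ) ^ m • p ν y := by
      intro m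
      induction m with
      | zero => rw [pow_zero, pow_zero, one_smul]; rfl
      | succ m ih =>
        rw [pow_succ', Module.End.mul_apply, ih, map_smul, LinearMap.sub_apply,
          LinearMap.smul_apply, Module.End.one_apply, hpe ν hν, ← sub_smul, smul_smul, pow_succ]
    exact h3 m
  -- the components for the other eigenvalues vanish
  have h4 : ∀ ν ∈ s, ν ≠ μ → p ν y = 0 := by
    intro ν hν hne
    have h5 : p ν (((F - μ • 1) ^ m) y) = (ν - μ) ^ m • p ν y := by
      conv_lhs => rw [hsum y]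
      rw [map_sum, map_sum, Finset.sum_eq_single ν]
      · rw [h2 ν hν, map_smul, h1 ν hν _ (hpe ν hν y)]
      · intro ρ hρ hρν
        rw [h2 ρ hρ, map_smul, h0 ν hν ρ hρν _ (hpe ρ hρ y), smul_zero]
      · exact fun h => absurd hν h
    rw [hm, map_zero] at h5
    exact (smul_eq_zero.1 h5.symm).resolve_left (pow_ne_zero _ (sub_ne_zero.2 hne))
  rw [hsum y, map_sum, Finset.smul_sum]
  refine Finset.sum_congr rfl fun ν hν => ?_
  by_cases hne : ν = μ
  · subst hne
    exact hpe _ hν y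
  · rw [h4 ν hν hne, map_zero, smul_zero]

/-- **The unconditional criteria.** -/
theorem gen_main (W : WeilCohomology.{u, v} ops) (X : 𝒱.Obj) (f : X ⟶ X) [IsAlgClosed W.K] :
    ((cohSys W X).Diagonalisable (W.map f) →
      List.TFAE [(cohSys W X).CentraliserAlgebraic (W.map f),
        (cohSys W X).EigenIrreducible (W.map f), (cohSys W X).EigenTransitive (W.map f)]) ∧
    (((cohSys W X).CentraliserAlgebraic (W.map f) ∧ (cohSys W X).Diagonalisable (W.map f)) ↔
      (cohSys W X).GenTransitive (W.map f)) ∧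
    ((cohSys W X).DistinctDegrees (W.map f) →
      (∃ c : W.K, c ≠ 0 ∧ ∀ a, W.tr X (W.map f a) = c * W.tr X a) →
      (((cohSys W X).CentraliserAlgebraic (W.map f) ∧ (cohSys W X).Diagonalisable (W.map f)) ↔
        (cohSys W X).GenTransitiveUpTo (W.map f) X.dim)) := by
  let F : Module.End W.K (W.H X) := (W.map f).toLinearMap
  have hgr : ∀ i, ∀ x ∈ W.gr X i, F x ∈ W.gr X i := fun i x hx => W.map_mem f hx
  have hfwd : (cohSys W X).CentraliserAlgebraic (W.map f) ∧
      (cohSys W X).Diagonalisable (W.map f) → (cohSys W X).GenTransitive (W.map f) := by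
    rintro ⟨h1, h2⟩ μ x y hx hx0 hy
    have T := (frob_all W X f h2).1
    have T02 := T.out 0 2
    exact T02.1 h1 μ x y hx (gen_eigen_of_diag (F := F) h2 (genEigen_iff.1 hy)) hx0
  refine ⟨fun h => (frob_all W X f h).1, ⟨hfwd, fun h => ?_⟩, ?_⟩
  · have h2 : (cohSys W X).Diagonalisable (W.map f) := diag_of_gen (F := F) (gen_of_gen h)
    have T := (frob_all W X f h2).1
    have T20 := T.out 2 0
    exact ⟨T20.1 fun μ x y hx hy hx0 => h μ x y hx hx0 ⟨1, by
      change F y - μ • y = 0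
      rw [sub_eq_zero]
      exact hy⟩, h2⟩
  · rintro hd ⟨c, hc, htr⟩
    have hmul : ∀ a b, W.tr X (F a * F b) = c * W.tr X (a * b) := by
      intro a b
      rw [← htr, map_mul (W.map f)]
      rfl
    constructor
    · intro h i _ μ x _ y _ hx' hx0 hy'
      exact hfwd h μ x y hx' hx0 hy'
    · intro h
      have h2 : (cohSys W X).Diagonalisable (W.map f) :=
        diag_of_gen (F := F) (gen_of_lower (F := F) hgr hc hmul h)
      refine ⟨((frob_all W X f h2).2 hd ⟨c, hc, htr⟩).2 ?_, h2⟩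
      intro i hi μ x hx y hy hx' hy' hx0
      exact h i hi μ x hx y hy hx' hx0 ⟨1, by
        change F y - μ • y = 0
        rw [sub_eq_zero]
        exact hy'⟩

/-- **The criteria, in short form.** -/
theorem gen_main' (W : WeilCohomology.{u, v} ops) (X : 𝒱.Obj) (f : X ⟶ X) [IsAlgClosed W.K] :
    ((cohSys W X).Diagonalisable (pullSys W X f) →
      List.TFAE [(cohSys W X).CentraliserAlgebraic (pullSys W X f),
        (cohSys W X).EigenIrreducible (pullSys W X f),
        (cohSys W X).EigenTransitive (pullSys W X f)]) ∧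
    ((cohSys W X).StrongTate (pullSys W X f) ↔ (cohSys W X).GenTransitive (pullSys W X f)) ∧
    ((cohSys W X).DistinctDegrees (pullSys W X f) → NonzeroDegree W X f →
      ((cohSys W X).StrongTate (pullSys W X f) ↔
        (cohSys W X).GenTransitiveUpTo (pullSys W X f) X.dim)) :=
  gen_main W X f

end Pool.Agent.U724C
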