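import Pool.Agent.U724C.Two

/-!
# The one-point criterion over algebraically closed fields: algebra
-/

set_option autoImplicit false

namespace Pool.Agent.U724C.Two

section

variable {K : Type*} [Field K]

/-- the idempotents span a product of matrix algebras -/
lemma span_idem_pi {n : ℕ} (d : Fin n → ℕ) :
    Submodule.span K {e : Π i, Matrix (Fin (d i)) (Fin (d i)) K | e * e = e} = ⊤ := by
  classical
  rw [eq_top_iff]
  intro f _
  have h1 : ∀ i (a b : Fin (d i)), (Pi.single i (Matrix.single a b 1) :
      Π i, Matrix (Fin (d i)) (Fin (d i)) K) ∈
        Submodule.span K {e : Π i, Matrix (Fin (d i)) (Fin (d i)) K | e * e = e} := by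
    intro i a b
    have h0 : (Pi.single i (Matrix.single a a 1) :
        Π i, Matrix (Fin (d i)) (Fin (d i)) K) ∈
          {e : Π i, Matrix (Fin (d i)) (Fin (d i)) K | e * e = e} := by
      rw [Set.mem_ofPred_eq, ← Pi.single_mul]
      simp
    by_cases hab : a = b
    · subst hab
      exact Submodule.subset_span h0
    · have h2 : (Pi.single i (Matrix.single a a 1 + Matrix.single a b 1) :
          Π i, Matrix (Fin (d i)) (Fin (d i)) K) ∈
            {e : Π i, Matrix (Fin (d i)) (Fin (d i)) K | e * e = e} := by
        rw [Set.mem_ofPred_eq, ← Pi.single_mul]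
        congr 1
        rw [add_mul, mul_add, mul_add]
        simp [Ne.symm hab]
      have h3 := Submodule.sub_mem _ (Submodule.subset_span (R := K) h2)
        (Submodule.subset_span (R := K) h0)
      rw [Pi.single_add, add_sub_cancel_left] at h3
      exact h3
  have h4 : f = ∑ i, ∑ a, ∑ b, f i a b • (Pi.single i (Matrix.single a b 1) :
      Π i, Matrix (Fin (d i)) (Fin (d i)) K) := by
    have h5 : ∀ i, (∑ a, ∑ b, f i a b • (Pi.single i (Matrix.single a b 1) :
      Π i, Matrix (Fin (d i)) (Fin (d i)) K)) = Pi.single i (f i) := by
      intro i
      change _ = LinearMap.single K (fun i => Matrix (Fin (d i)) (Fin (d i)) K) i (f i)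
      conv_rhs => rw [Matrix.matrix_eq_sum_single (f i)]
      rw [map_sum]
      refine Finset.sum_congr rfl fun a _ => ?_
      rw [map_sum]
      refine Finset.sum_congr rfl fun b _ => ?_
      rw [← Pi.single_smul, Matrix.smul_single, smul_eq_mul, mul_one]
      rfl
    rw [Finset.sum_congr rfl fun i _ => h5 i]
    exact (Finset.univ_sum_single f).symm
  rw [h4]
  exact Submodule.sum_mem _ fun i _ => Submodule.sum_mem _ fun a _ =>
    Submodule.sum_mem _ fun b _ => Submodule.smul_mem _ _ (h1 i a b)

/-- the idempotents span a semisimple algebra over an algebraically closed field -/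
lemma span_idem [IsAlgClosed K] (E : Type*) [Ring E] [Algebra K E] [IsSemisimpleRing E]
    [Module.Finite K E] : Submodule.span K {e : E | e * e = e} = ⊤ := by
  obtain ⟨n, d, _, ⟨f⟩⟩ := IsSemisimpleRing.exists_algEquiv_pi_matrix_of_isAlgClosed K E
  rw [eq_top_iff]
  intro x _
  have h1 : f x ∈ Submodule.span K {e : Π i, Matrix (Fin (d i)) (Fin (d i)) K | e * e = e} := by
    rw [span_idem_pi]
    trivial
  have h2 : ∀ y ∈ Submodule.span K {e : Π i, Matrix (Fin (d i)) (Fin (d i)) K | e * e = e},
      f.symm y ∈ Submodule.span K {e : E | e * e = e} := by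
    intro y hy
    induction hy using Submodule.span_induction with
    | mem y hy =>
      refine Submodule.subset_span ?_
      rw [Set.mem_ofPred_eq, ← map_mul]
      exact congrArg f.symm hy
    | zero => rw [map_zero]; exact Submodule.zero_mem _
    | add y z _ _ hy hz => rw [map_add]; exact Submodule.add_mem _ hy hz
    | smul c y _ hy => rw [map_smul]; exact Submodule.smul_mem _ _ hy
  have h3 := h2 _ h1
  rwa [AlgEquiv.symm_apply_apply] at h3

end

variable {K : Type*} [Field K] {V : Type*} [AddCommGroup V] [Module K V]
  {R : Subalgebra K (Module.End K V)} [Module.Finite K V]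

/-- **Semisimple algebras over algebraically closed fields are reflexive.** -/
lemma mem_of_lat [IsAlgClosed K] (h : SS R) (f : Module.End K V)
    (hf : ∀ U : Submodule K V, St R U → ∀ x ∈ U, f x ∈ U) : f ∈ R := by
  have := isSemisimple h
  have hfin : Module.Finite R V := Module.Finite.of_restrictScalars_finite K R V
  have hss : IsSemisimpleRing (Module.End R V) := IsSemisimpleRing.moduleEnd R V
  have hcomm : SMulCommClass R K V := ⟨fun r c x => (r : Module.End K V).map_smul c x⟩
  have hcomm' : SMulCommClass K R V := SMulCommClass.symm _ _ _
  have hEfin : Module.Finite K (Module.End R V) := by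
    let g : Module.End R V →ₗ[K] Module.End K V :=
      { toFun := fun φ =>
          { toFun := φ
            map_add' := φ.map_add
            map_smul' := fun c y => φ.map_smul (algebraMap K R c) y }
        map_add' := fun _ _ => rfl
        map_smul' := fun _ _ => rfl }
    refine Module.Finite.of_injective g ?_
    intro a b hab
    ext x
    exact LinearMap.congr_fun hab x
  have key : ∀ e : Module.End R V, e * e = e → ∀ x, f (e x) = e (f x) := by
    intro e he x
    have he' : ∀ x, e (e x) = e x := fun x => LinearMap.congr_fun he x
    let U : Submodule K V :=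
      { carrier := {x | e x = x}
        add_mem' := by
          intro a b ha hb
          change e (a + b) = a + b
          rw [map_add, ha, hb]
        zero_mem' := map_zero e
        smul_mem' := by
          intro c a ha
          have h1 : e (algebraMap K R c • a) = algebraMap K R c • e a := e.map_smul _ a
          have h2 : ∀ y : V, algebraMap K R c • y = c • y := fun y => rfl
          rw [h2, h2, ha] at h1
          exact h1 }
    let U' : Submodule K V :=
      { carrier := {x | e x = 0}
        add_mem' := by
          intro a b ha hb
          change e (a + b) = 0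
          rw [map_add, ha, hb, add_zero]
        zero_mem' := map_zero e
        smul_mem' := by
          intro c a ha
          have h1 : e (algebraMap K R c • a) = algebraMap K R c • e a := e.map_smul _ a
          have h2 : ∀ y : V, algebraMap K R c • y = c • y := fun y => rfl
          rw [h2, h2, ha, smul_zero] at h1
          exact h1 }
    have hU : ∀ y ∈ U, f y ∈ U := hf U (by
      intro u hu y hy
      change e (u y) = u y
      have h1 : e ((⟨u, hu⟩ : R) • y) = (⟨u, hu⟩ : R) • e y := e.map_smul _ y
      have hy' : e y = y := hy
      rw [hy'] at h1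
      exact h1)
    have hU' : ∀ y ∈ U', f y ∈ U' := hf U' (by
      intro u hu y hy
      change e (u y) = 0
      have h1 : e ((⟨u, hu⟩ : R) • y) = (⟨u, hu⟩ : R) • e y := e.map_smul _ y
      have hy' : e y = 0 := hy
      rw [hy', smul_zero] at h1
      exact h1)
    have h1 : e (f (e x)) = f (e x) := hU (e x) (he' x)
    have h2 : e (f (x - e x)) = 0 := hU' (x - e x) (by
      change e (x - e x) = 0
      rw [map_sub, he', sub_self])
    rw [map_sub, map_sub, h1, sub_eq_zero] at h2
    exact h2.symm
  apply mem_of_comm h
  intro φ hφ
  let φ' : Module.End R V :=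
    { toFun := φ
      map_add' := φ.map_add
      map_smul' := fun r y => LinearMap.congr_fun (hφ r.1 r.2) y }
  have h1 : φ' ∈ Submodule.span K {e : Module.End R V | e * e = e} := by
    rw [span_idem]
    trivial
  have h2 : ∀ ψ ∈ Submodule.span K {e : Module.End R V | e * e = e}, ∀ x, f (ψ x) = ψ (f x) := by
    intro ψ hψ
    induction hψ using Submodule.span_induction with
    | mem e he => exact key e he
    | zero => intro x; exact map_zero f
    | add y z _ _ hy hz =>
      intro x
      rw [LinearMap.add_apply, LinearMap.add_apply, map_add, hy, hz]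
    | smul c y _ hy =>
      intro x
      rw [LinearMap.smul_apply, LinearMap.smul_apply, map_smul, hy]
  ext x
  exact h2 φ' h1 x

end Pool.Agent.U724C.Two
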