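import Pool.Agent.U724B.SysDefs

/-!
# The cohomology of a variety as a graded module over the correspondences of degree zero: definitions
-/

set_option autoImplicit false

open CategoryTheory AlgebraicGeometry Polynomial

universe u v w

namespace Pool.Agent.U724C

open Pool.Agent.H914 VarClass Obj WeilCohomology Pool.Agent.U724B

/-- A finite-dimensional vector space with subspaces `gr i` (its parts of degree `i`), and a set of
maps called the cycles. (In the use made here, these are given by the cohomology of a variety, see
`cohSys`.) -/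
structure CohSys (K : Type v) [Field K] where
  /-- the underlying vector space -/
  V : Type v
  [grp : AddCommGroup V]
  [mod : Module K V]
  [fin : Module.Finite K V]
  /-- the parts of degree `i` -/
  gr : ℕ → Submodule K V
  /-- the cycles -/
  Cyc : (V → V) → Prop

attribute [instance] CohSys.grp CohSys.mod CohSys.fin

section

variable {k : Type u} [Field k] {𝒱 : VarClass k} {ops : CycleOps 𝒱}

/-- `H(X)` is finite-dimensional. -/
theorem finH (W : WeilCohomology.{u, v} ops) (X : 𝒱.Obj) :
    @Module.Finite W.K (W.H X) _ (addH W X).toAddCommMonoid (modH W X) := W.finite X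

/-- The cohomology of `X`, with the actions of the algebraic cycles on `X × X` of codimension
`dim X`, with rational coefficients. -/
noncomputable abbrev cohSys (W : WeilCohomology.{u, v} ops) (X : 𝒱.Obj) : CohSys W.K :=
  @CohSys.mk W.K _ (W.H X) (addH W X) (modH W X) (finH W X) (W.gr X) (ActsAsCycle W X 0)

end

namespace CohSys

variable {K : Type v} [Field K] (S : CohSys K)

/-- The correspondences: linear combinations of cycles, with coefficients in `K`. -/
def Corr (u : S.V → S.V) : Prop := u ∈ Submodule.span K {u | S.Cyc u}

/-- The map `u` is the identity on the parts of degree `i`, `i` in `T`, and zero on the others. -/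
def Projects (T : Set ℕ) (u : S.V → S.V) : Prop :=
  ∀ i, ∀ x ∈ S.gr i, (i ∈ T → u x = x) ∧ (i ∉ T → u x = 0)

/-- A cycle induces the projector onto the degrees in `T`. -/
def CycleProj (T : Set ℕ) : Prop := ∃ u, S.Cyc u ∧ S.Projects T u

/-- A correspondence induces the projector onto the degrees in `T`. -/
def CorrProj (T : Set ℕ) : Prop := ∃ u, S.Corr u ∧ S.Projects T u

/-- For every `x` of degree in `T` and every `y` of degree not in `T` there is a correspondence `u`,
which may depend on `x` and `y`, with `u x = x` and `u y = 0`. -/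
def Pairs (T : Set ℕ) : Prop :=
  ∀ i ∈ T, ∀ j ∉ T, ∀ x ∈ S.gr i, ∀ y ∈ S.gr j, ∃ u, S.Corr u ∧ u x = x ∧ u y = 0

/-- The sum of the parts of degree in `T`. -/
def part (T : Set ℕ) : Submodule K S.V := ⨆ i ∈ T, S.gr i

/-- The subspace `U` is stable under the correspondences. -/
def Stable (U : Submodule K S.V) : Prop := ∀ u, S.Corr u → ∀ x ∈ U, u x ∈ U

/-- Every subspace stable under the correspondences is the sum of its intersections with the sum of
the parts of degree in `T` and with the sum of the others. -/
def Splitting (T : Set ℕ) : Prop :=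
  ∀ U, S.Stable U → ∀ x ∈ S.part T, ∀ y ∈ S.part Tᶜ, x + y ∈ U → x ∈ U

/-- `M / M'` is an irreducible composition factor of `A`: `M' < M` are stable subspaces of `A`, with
no stable subspaces in between. -/
def IsFactor (A M' M : Submodule K S.V) : Prop :=
  S.Stable M' ∧ S.Stable M ∧ M' < M ∧ M ≤ A ∧ ∀ N, S.Stable N → M' < N → N ≤ M → N = M

/-- The linear map `f` maps `M` to `N`, and it induces an isomorphism from `M / M'` to `N / N'` which
commutes with the correspondences. -/
structure InducesIso (M' M N' N : Submodule K S.V) (f : S.V → S.V) : Prop where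
  add : ∀ x y, f (x + y) = f x + f y
  smul : ∀ (c : K) (x : S.V), f (c • x) = c • f x
  mem : ∀ x ∈ M, f x ∈ N
  ker : ∀ x ∈ M, f x ∈ N' ↔ x ∈ M'
  surj : ∀ y ∈ N, ∃ x ∈ M, f x - y ∈ N'
  comm : ∀ u, S.Corr u → ∀ x ∈ M, f (u x) - u (f x) ∈ N'

/-- Some irreducible composition factor `M / M'` of `A` is isomorphic to an irreducible composition
factor `N / N'` of `B`. -/
def Linked (A B : Submodule K S.V) : Prop :=
  ∃ M' M N' N, S.IsFactor A M' M ∧ S.IsFactor B N' N ∧ ∃ f, S.InducesIso M' M N' N f

/-- The subspace `U` is stable under `u`, and `f` is the characteristic polynomial of `u` on `U`. -/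
def IsCharpoly (U : Submodule K S.V) (u : S.V → S.V) (f : K[X]) : Prop :=
  ∃ a : U →ₗ[K] U, (∀ x, (a x : S.V) = u x) ∧ LinearMap.charpoly a = f

/-- One cycle has coprime characteristic polynomials on the parts of degree `i` and `j` for all `i`
in `T` and all `j` not in `T`. -/
def CoprimeCycle (T : Set ℕ) : Prop :=
  ∃ u, S.Cyc u ∧ ∀ i ∈ T, ∀ j ∉ T, ∃ f g, S.IsCharpoly (S.gr i) u f ∧ S.IsCharpoly (S.gr j) u g ∧
    IsCoprime f g

/-- All cycles have characteristic polynomials with rational coefficients on all parts of
degree `i`. -/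
def Rational : Prop :=
  ∀ u, S.Cyc u → ∀ i, ∃ f, S.IsCharpoly (S.gr i) u f ∧ ∀ n, ∃ q : ℚ, f.coeff n = (q : K)

/-- For all `i` in `T` the correspondences act irreducibly on the part of degree `i`, if it is not
zero, and its dimension is larger than the dimensions of the parts of degree `j`, `j` not
in `T`. -/
def Large (T : Set ℕ) : Prop :=
  ∀ i ∈ T, (∀ U ≤ S.gr i, S.Stable U → U = ⊥ ∨ U = S.gr i) ∧
    ∀ j ∉ T, S.gr i ≠ ⊥ → Module.finrank K (S.gr j) < Module.finrank K (S.gr i)

/-- The correspondence `u` is zero on the part of degree `j`. -/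
def Kills (j : ℕ) (u : S.V → S.V) : Prop := S.Corr u ∧ ∀ y ∈ S.gr j, u y = 0

/-- The span of the `u x`, where `x` is in `U` and the correspondence `u` is zero on the part of
degree `j`. -/
def killSpan (j : ℕ) (U : Submodule K S.V) : Submodule K S.V :=
  Submodule.span K {y | ∃ u x, S.Kills j u ∧ x ∈ U ∧ u x = y}

/-- A linear action of the group `Γ` which has the formal properties of the action of a Galois
group, for a variety defined over a smaller field: it respects the degrees and conjugates cycles
into correspondences. -/
structure Action (Γ : Type w) [Group Γ] where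
  /-- the action -/
  app : Γ → S.V → S.V
  one : ∀ x, app 1 x = x
  mul : ∀ g h x, app (g * h) x = app g (app h x)
  add : ∀ g x y, app g (x + y) = app g x + app g y
  smul : ∀ (g : Γ) (a : K) (x : S.V), app g (a • x) = a • app g x
  gr_mem : ∀ g i, ∀ x ∈ S.gr i, app g x ∈ S.gr i
  conj : ∀ g u, S.Cyc u → S.Corr (fun x => app g (u (app g⁻¹ x)))

variable {S} {Γ : Type w} [Group Γ]

/-- The subspace `U` is stable under `Γ`. -/
def Action.Stable (A : S.Action Γ) (U : Submodule K S.V) : Prop := ∀ g, ∀ x ∈ U, A.app g x ∈ U

/-- The subspace `U` is stable, different from zero, and contains no other stable subspace which is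
different from zero. -/
def Action.Irreducible (A : S.Action Γ) (U : Submodule K S.V) : Prop :=
  U ≠ ⊥ ∧ A.Stable U ∧ ∀ U' ≤ U, A.Stable U' → U' ≠ ⊥ → U' = U

/-- Every stable subspace of `T` has a stable complement in `T`. -/
def Action.Semisimple (A : S.Action Γ) (T : Submodule K S.V) : Prop :=
  ∀ M ≤ T, A.Stable M → ∃ C ≤ T, A.Stable C ∧ M ⊓ C = ⊥ ∧ M ⊔ C = T

variable (S)

/-- If the parts of degree in `T` are semisimple under a group `Γ`, the projector onto the degrees in
`T` is a correspondence if and only if, for `i` in `T` and `j` not in `T`, every irreducible subspace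
`U` of the part of degree `i` is contained in the span of the `u x`, where `x` is in `U` and the
correspondence `u` is zero on the part of degree `j`. -/
def SemisimpleRule (T : Set ℕ) : Prop :=
  ∀ (Γ : Type w) [Group Γ] (A : S.Action Γ), (∀ i ∈ T, A.Semisimple (S.gr i)) →
    (S.CorrProj T ↔
      ∀ i ∈ T, ∀ j ∉ T, ∀ U ≤ S.gr i, A.Irreducible U → U ≤ S.killSpan j U)

/-- If the parts of degree in `T` are zero or irreducible under a group `Γ`, the projector onto the
degrees in `T` is a correspondence if and only if, for `i` in `T` and `j` not in `T`, some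
correspondence is zero on the part of degree `j` but not on the part of degree `i`, if the latter is
not zero. -/
def IrreducibleRule (T : Set ℕ) : Prop :=
  ∀ (Γ : Type w) [Group Γ] (A : S.Action Γ), (∀ i ∈ T, S.gr i = ⊥ ∨ A.Irreducible (S.gr i)) →
    (S.CorrProj T ↔
      ∀ i ∈ T, ∀ j ∉ T, S.gr i ≠ ⊥ → ∃ u, S.Kills j u ∧ ∃ x ∈ S.gr i, u x ≠ 0)

end CohSys

end Pool.Agent.U724C
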