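import Pool.Agent.U724C.SysDefs

/-!
# Galois actions on the cohomology of a variety and Tate classes on `X × X`: definitions
-/

set_option autoImplicit false

universe u v w

namespace Pool.Agent.U724C

namespace CohSys

variable {K : Type v} [Field K] (S : CohSys K)

/-- A linear action of the group `Γ` which respects the degrees. (In the use made here, `Γ` is the
Galois group of a field of definition of the variety.) -/
structure GalAction (Γ : Type w) [Group Γ] where
  /-- the action -/
  app : Γ → S.V → S.V
  one : ∀ x, app 1 x = x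
  mul : ∀ g h x, app (g * h) x = app g (app h x)
  add : ∀ g x y, app g (x + y) = app g x + app g y
  smul : ∀ (g : Γ) (a : K) (x : S.V), app g (a • x) = a • app g x
  gr_mem : ∀ g i, ∀ x ∈ S.gr i, app g x ∈ S.gr i

variable {S}

/-- The map `f` is linear. -/
def Lin (f : S.V → S.V) : Prop :=
  (∀ x y, f (x + y) = f x + f y) ∧ ∀ (a : K) (x : S.V), f (a • x) = a • f x

/-- The maps `u` and `f` commute. -/
def Comm (u f : S.V → S.V) : Prop := ∀ x, u (f x) = f (u x)

/-- The subspace `U` of the square is stable under `u`. -/
def PairStable (U : Submodule K (S.V × S.V)) (u : S.V → S.V) : Prop :=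
  ∀ p ∈ U, (u p.1, u p.2) ∈ U

namespace GalAction

variable {Γ : Type w} [Group Γ] (A : S.GalAction Γ)

/-- Every subspace of the part of degree `i` which is stable under `Γ` has a stable complement, for
all `i`. -/
def Semisimple : Prop :=
  ∀ i, ∀ M ≤ S.gr i, (∀ g, ∀ x ∈ M, A.app g x ∈ M) →
    ∃ C ≤ S.gr i, (∀ g, ∀ x ∈ C, A.app g x ∈ C) ∧ M ⊓ C = ⊥ ∧ M ⊔ C = S.gr i

/-- A Tate class: a linear map which respects the degrees and commutes with the action of `Γ`. -/
def IsTate (τ : S.V → S.V) : Prop :=
  Lin τ ∧ (∀ i, ∀ x ∈ S.gr i, τ x ∈ S.gr i) ∧ ∀ g, Comm τ (A.app g)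

/-- An invariant correspondence: a linear combination of cycles which commutes with the action
of `Γ`. -/
def IsAlg (u : S.V → S.V) : Prop := S.Corr u ∧ ∀ g, Comm u (A.app g)

/-- The Tate conjecture for `X × X` in codimension `dim X`: every Tate class is a linear combination
of cycles. -/
def TateConj : Prop := ∀ τ, A.IsTate τ → A.IsAlg τ

/-- For homogeneous `x` and `y` there is an invariant correspondence `u`, which may depend on `x`
and `y`, with `u x = τ x` and `u y = τ y`. -/
def AlgOnPairs (τ : S.V → S.V) : Prop :=
  ∀ i j, ∀ x ∈ S.gr i, ∀ y ∈ S.gr j, ∃ u, A.IsAlg u ∧ u x = τ x ∧ u y = τ y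

/-- The subspaces of the square which are stable under the invariant correspondences are stable
under `τ`. -/
def FixesPairSpaces (τ : S.V → S.V) : Prop :=
  ∀ U : Submodule K (S.V × S.V), (∀ u, A.IsAlg u → PairStable U u) → PairStable U τ

/-- The linear map `f` commutes with all invariant correspondences. -/
def InCommutant (f : S.V → S.V) : Prop := Lin f ∧ ∀ u, A.IsAlg u → Comm f u

/-- Every subspace which is stable under the invariant correspondences has a complement with this
property. -/
def AlgSemisimple : Prop :=
  ∀ U : Submodule K S.V, (∀ u, A.IsAlg u → ∀ x ∈ U, u x ∈ U) →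
    ∃ C : Submodule K S.V, (∀ u, A.IsAlg u → ∀ x ∈ C, u x ∈ C) ∧ U ⊓ C = ⊥ ∧ U ⊔ C = ⊤

/-- The invariant correspondences act semisimply, and every linear map which commutes with them is
in every degree a linear combination of elements of `Γ`. -/
def Bicommutant : Prop :=
  A.AlgSemisimple ∧ ∀ f, A.InCommutant f → ∀ i, ∃ c ∈ Submodule.span K {c | ∃ g, c = A.app g},
    ∀ x ∈ S.gr i, f x = c x

/-- For every `x`, not necessarily homogeneous, there is an invariant correspondence `u`, which may
depend on `x`, with `u x = τ x`. -/
def AlgOnPoints (τ : S.V → S.V) : Prop := ∀ x, ∃ u, A.IsAlg u ∧ u x = τ x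

/-- The subspaces which are stable under the invariant correspondences are stable under `τ`. -/
def FixesSpaces (τ : S.V → S.V) : Prop :=
  ∀ U : Submodule K S.V, (∀ u, A.IsAlg u → ∀ x ∈ U, u x ∈ U) → ∀ x ∈ U, τ x ∈ U

end GalAction

end CohSys

end Pool.Agent.U724C
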