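import Mathlib

/-!
# The two-point criterion: algebra
-/

set_option autoImplicit false

namespace Pool.Agent.U724C.Two

variable {K : Type*} [Field K] {V : Type*} [AddCommGroup V] [Module K V]

/-- The subspace `U` is stable under the operators in `R`. -/
def St (R : Subalgebra K (Module.End K V)) (U : Submodule K V) : Prop :=
  ∀ u ∈ R, ∀ x ∈ U, u x ∈ U

/-- The stable subspaces have stable complements. -/
def SS (R : Subalgebra K (Module.End K V)) : Prop :=
  ∀ U : Submodule K V, St R U → ∃ C, St R C ∧ U ⊓ C = ⊥ ∧ U ⊔ C = ⊤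

variable {R B : Subalgebra K (Module.End K V)}

lemma smul_def (r : R) (x : V) : r • x = (r : Module.End K V) x := rfl

/-- a stable subspace as a submodule -/
def toSub (U : Submodule K V) (h : St R U) : Submodule R V where
  carrier := U
  add_mem' := fun ha hb => U.add_mem ha hb
  zero_mem' := U.zero_mem
  smul_mem' := by
    intro r x hx
    exact h r.1 r.2 x hx

/-- a submodule as a subspace -/
def ofSub (N : Submodule R V) : Submodule K V where
  carrier := N
  add_mem' := fun ha hb => N.add_mem ha hb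
  zero_mem' := N.zero_mem
  smul_mem' := by
    intro c x hx
    have := N.smul_mem (algebraMap K R c) hx
    exact this

lemma ofSub_st (N : Submodule R V) : St R (ofSub N) := by
  intro u hu x hx
  exact N.smul_mem ⟨u, hu⟩ hx

lemma isSemisimple (h : SS R) : IsSemisimpleModule R V := by
  rw [isSemisimpleModule_iff]
  refine ⟨fun N => ?_⟩
  obtain ⟨C, hC, h1, h2⟩ := h (ofSub N) (ofSub_st N)
  refine ⟨toSub C hC, ?_⟩
  constructor
  · rw [disjoint_iff, eq_bot_iff]
    rintro x ⟨hx, hx'⟩
    have : x ∈ ofSub N ⊓ C := ⟨hx, hx'⟩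
    rw [h1] at this
    exact this
  · rw [codisjoint_iff, eq_top_iff]
    intro x _
    have : x ∈ ofSub N ⊔ C := by rw [h2]; trivial
    obtain ⟨a, ha, b, hb, hab⟩ := Submodule.mem_sup.1 this
    exact Submodule.mem_sup.2 ⟨a, ha, b, hb, hab⟩

lemma ss_of_isSemisimple [IsSemisimpleModule R V] : SS R := by
  intro U hU
  obtain ⟨N, hN⟩ := exists_isCompl (toSub U hU)
  refine ⟨ofSub N, ofSub_st N, ?_, ?_⟩
  · rw [eq_bot_iff]
    rintro x ⟨hx, hx'⟩
    have : x ∈ toSub U hU ⊓ N := ⟨hx, hx'⟩
    rw [hN.inf_eq_bot] at this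
    exact this
  · rw [eq_top_iff]
    intro x _
    have : x ∈ toSub U hU ⊔ N := by rw [hN.sup_eq_top]; trivial
    obtain ⟨a, ha, b, hb, hab⟩ := Submodule.mem_sup.1 this
    exact Submodule.mem_sup.2 ⟨a, ha, b, hb, hab⟩

variable [Module.Finite K V]

/-- **The double commutant theorem.** -/
lemma mem_of_comm (h : SS R) (f : Module.End K V)
    (hf : ∀ φ : Module.End K V, (∀ r ∈ R, φ * r = r * φ) → f * φ = φ * f) : f ∈ R := by
  have := isSemisimple h
  let F : V →ₗ[Module.End R V] V :=
    { toFun := f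
      map_add' := f.map_add
      map_smul' := by
        intro φ x
        let φ' : Module.End K V :=
          { toFun := φ
            map_add' := φ.map_add
            map_smul' := by
              intro c y
              exact φ.map_smul (algebraMap K R c) y }
        have h1 := hf φ' (by
          intro r hr
          ext y
          exact φ.map_smul (⟨r, hr⟩ : R) y)
        exact LinearMap.congr_fun h1 x }
  obtain ⟨s, hs⟩ := (Module.Finite.fg_top : (⊤ : Submodule K V).FG)
  obtain ⟨r, hr⟩ := jacobson_density (R := R) (M := V) F s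
  have e : f = (r : Module.End K V) := by
    ext x
    have hx : x ∈ Submodule.span K (s : Set V) := by rw [hs]; trivial
    induction hx using Submodule.span_induction with
    | mem y hy => exact hr y hy
    | zero => rw [map_zero, map_zero]
    | add y z _ _ hy hz => rw [map_add, map_add, hy, hz]
    | smul c y _ hy => rw [map_smul, map_smul, hy]
  rw [e]
  exact r.2

/-- the stable subspaces for the commutant of a semisimple algebra -/
lemma ss_comm (h : SS B) (U : Submodule K V)
    (hU : ∀ τ : Module.End K V, (∀ b ∈ B, τ * b = b * τ) → ∀ x ∈ U, τ x ∈ U) :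
    ∃ C : Submodule K V,
      (∀ τ : Module.End K V, (∀ b ∈ B, τ * b = b * τ) → ∀ x ∈ C, τ x ∈ C) ∧
        U ⊓ C = ⊥ ∧ U ⊔ C = ⊤ := by
  have := isSemisimple h
  have hfin : Module.Finite B V := Module.Finite.of_restrictScalars_finite K B V
  have hss : IsSemisimpleRing (Module.End B V) := IsSemisimpleRing.moduleEnd B V
  have hssm : IsSemisimpleModule (Module.End B V) V := inferInstance
  have key : ∀ φ : Module.End B V, ∃ τ : Module.End K V, (∀ b ∈ B, τ * b = b * τ) ∧
      ∀ x, τ x = φ x := by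
    intro φ
    refine ⟨{ toFun := φ
              map_add' := φ.map_add
              map_smul' := fun c y => φ.map_smul (algebraMap K B c) y }, ?_, fun _ => rfl⟩
    intro r hr
    ext y
    exact φ.map_smul (⟨r, hr⟩ : B) y
  let N : Submodule (Module.End B V) V :=
    { carrier := U
      add_mem' := fun ha hb => U.add_mem ha hb
      zero_mem' := U.zero_mem
      smul_mem' := by
        intro φ x hx
        obtain ⟨τ, h1, h2⟩ := key φ
        have := hU τ h1 x hx
        rw [h2] at this
        exact this }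
  obtain ⟨C, hC⟩ := exists_isCompl N
  have key2 : ∀ τ : Module.End K V, (∀ b ∈ B, τ * b = b * τ) → ∀ x ∈ C, τ x ∈ C := by
    intro τ hτ x hx
    let φ : Module.End B V :=
      { toFun := τ
        map_add' := τ.map_add
        map_smul' := fun b y => LinearMap.congr_fun (hτ b.1 b.2) y }
    exact C.smul_mem φ hx
  let C' : Submodule K V :=
    { carrier := C
      add_mem' := fun ha hb => C.add_mem ha hb
      zero_mem' := C.zero_mem
      smul_mem' := by
        intro c x hx
        exact key2 (c • 1) (fun b _ => by rw [smul_mul_assoc, one_mul, mul_smul_comm, mul_one]) x hx }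
  refine ⟨C', key2, ?_, ?_⟩
  · rw [eq_bot_iff]
    rintro x ⟨hx, hx'⟩
    have : x ∈ N ⊓ C := ⟨hx, hx'⟩
    rw [hC.inf_eq_bot] at this
    exact this
  · rw [eq_top_iff]
    intro x _
    have : x ∈ N ⊔ C := by rw [hC.sup_eq_top]; trivial
    obtain ⟨a, ha, b, hb, hab⟩ := Submodule.mem_sup.1 this
    exact Submodule.mem_sup.2 ⟨a, ha, b, hb, hab⟩

/-- **The two-point criterion.** -/
theorem tfae (hB : SS B) (hRB : ∀ r ∈ R, ∀ b ∈ B, r * b = b * r) :
    List.TFAE [
      ∀ τ : Module.End K V, (∀ b ∈ B, τ * b = b * τ) → τ ∈ R,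
      ∀ τ : Module.End K V, (∀ b ∈ B, τ * b = b * τ) → ∀ x y, ∃ u ∈ R, u x = τ x ∧ u y = τ y,
      ∀ U : Submodule K (V × V), (∀ u ∈ R, ∀ p ∈ U, (u p.1, u p.2) ∈ U) →
        ∀ τ : Module.End K V, (∀ b ∈ B, τ * b = b * τ) → ∀ p ∈ U, (τ p.1, τ p.2) ∈ U,
      SS R ∧ ∀ φ : Module.End K V, (∀ r ∈ R, φ * r = r * φ) → φ ∈ B] := by
  tfae_have 1 → 2 := fun h τ hτ x y => ⟨τ, h τ hτ, rfl, rfl⟩
  tfae_have 2 → 3 := by
    rintro h U hU τ hτ ⟨x, y⟩ hp
    obtain ⟨u, hu, h1, h2⟩ := h τ hτ x y
    have := hU u hu _ hp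
    rw [← h1, ← h2]
    exact this
  tfae_have 3 → 2 := by
    intro h τ hτ x y
    let U : Submodule K (V × V) :=
      { carrier := {p | ∃ u ∈ R, (u x, u y) = p}
        add_mem' := by
          rintro _ _ ⟨u, hu, rfl⟩ ⟨v, hv, rfl⟩
          exact ⟨u + v, R.add_mem hu hv, rfl⟩
        zero_mem' := ⟨0, R.zero_mem, rfl⟩
        smul_mem' := by
          rintro c _ ⟨u, hu, rfl⟩
          exact ⟨c • u, R.smul_mem hu c, rfl⟩ }
    obtain ⟨u, hu, he⟩ := h U (by
      rintro u hu _ ⟨v, hv, rfl⟩
      exact ⟨u * v, R.mul_mem hu hv, rfl⟩) τ hτ (x, y) ⟨1, R.one_mem, rfl⟩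
    exact ⟨u, hu, congrArg Prod.fst he, congrArg Prod.snd he⟩
  tfae_have 2 → 4 := by
    intro h
    have hst : ∀ U : Submodule K V, St R U →
        ∀ τ : Module.End K V, (∀ b ∈ B, τ * b = b * τ) → ∀ x ∈ U, τ x ∈ U := by
      intro U hU τ hτ x hx
      obtain ⟨u, hu, h1, -⟩ := h τ hτ x x
      rw [← h1]
      exact hU u hu x hx
    constructor
    · intro U hU
      obtain ⟨C, hC, h1, h2⟩ := ss_comm hB U (hst U hU)
      exact ⟨C, fun r hr => hC r (fun b hb => hRB r hr b hb), h1, h2⟩
    · intro φ hφ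
      apply mem_of_comm hB
      intro τ hτ
      ext x
      obtain ⟨u, hu, h1, h2⟩ := h τ hτ x (φ x)
      rw [Module.End.mul_apply, Module.End.mul_apply, ← h1, ← h2]
      exact LinearMap.congr_fun (hφ u hu) x
  tfae_have 4 → 1 := by
    rintro ⟨h1, h2⟩ τ hτ
    apply mem_of_comm h1
    intro φ hφ
    exact hτ φ (h2 φ hφ)
  tfae_finish

end Pool.Agent.U724C.Two
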